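import Mathlib
import Pool.Agent.Lib.MP_44a246_ntS.SR0

/-!
Certificates for points of arbitrary varieties: a point lies on a rational image, inside the zero
set of a family of forms, of a plane curve of small degree.
-/

namespace Pool.Agent.Lib.MP_44a246_ntG

open Pool.Agent.Lib.MP_44a246_ntS
open Pool.Agent.Lib.MP_e52354_nt
open Polynomial

/-- The point `x` of projective space lies on the image of the plane curve `A = 0`
(of degree at most `b` in both variables) under the map `B`, this image is contained in the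
zero set of the forms of degrees `e i` with the coefficients `a i`, and the map is inverse to the
linear projection given by `ξ₀, ξ₁, ξ₂`. -/
def CertV {L : Type*} [Field L] {n : ℕ} {ι : Type*} (e : ι → ℕ)
    (a : ι → (Fin (n + 1) →₀ ℕ) → L) (b : ℕ) (x : Fin (n + 1) → L) : Prop :=
  ∃ (A : L[X][X]) (B : Fin (n + 1) → L[X][X]) (ξ₀ ξ₁ ξ₂ : Fin (n + 1) → L) (c y₁ y : L),
    Box b A ∧ (∀ j, Box b (B j)) ∧ c ≠ 0 ∧
    ∑ j, ξ₀ j * (c * x j) = 1 ∧ ∑ j, ξ₁ j * (c * x j) = y₁ ∧ ∑ j, ξ₂ j * (c * x j) = y ∧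
    A.evalEval y₁ y = 0 ∧ (derivative A).evalEval y₁ y ≠ 0 ∧
    (∀ j, (derivative A).evalEval y₁ y * (c * x j) = (B j).evalEval y₁ y) ∧
    (∀ i, A ∣ FB (e i) (a i) B) ∧ A ∣ ∑ j, C (C (ξ₀ j)) * B j - derivative A ∧
    A ∣ ∑ j, C (C (ξ₁ j)) * B j - C X * derivative A ∧
    A ∣ ∑ j, C (C (ξ₂ j)) * B j - X * derivative A

end Pool.Agent.Lib.MP_44a246_ntG
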