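import Mathlib
import Pool.Agent.Lib.MP_44a246_ntS.SD6
import Pool.Agent.Lib.MP_44a246_ntL.LPol
import Pool.Agent.Lib.MP_44a246_ntL.LSum
import Pool.Agent.Lib.MP_44a246_ntX.X0

/-!
The data of the height theorem for points of arbitrary varieties: a point, a form with derivations
dual to its coefficients, the projection to the plane, the combinations of the derivations given by
the monomials of the plane.
-/

namespace Pool.Agent.Lib.MP_44a246_ntG

open Pool.Agent.Lib.MP_44a246_nt
open Pool.Agent.Lib.MP_44a246_ntL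
open Pool.Agent.Lib.MP_44a246_ntS
open Pool.Agent.Lib.MP_44a246_ntX
open Pool.Agent.Lib.MP_e52354_nt
open WithZero Module

/-- A point `x` (normalised by `∑ ξ₀ j x j = 1`), the form of degree `d` with coefficients `a`,
derivations `D I` dual to the coefficients, constants `z` and derivations `E` dual to `z` which
kill `x`; the derivations `E` have poles of order at most `δ`, the minors of size `m` of the
derivations `D I` have poles of order at most `m δ + ρ`; the linear forms `ξ₀, ξ₁` with natural coefficients do not vanish simultaneously at `x`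
at any place. -/
structure DatG (κ : Type*) {L : Type*} [Field κ] [Field L] [Algebra κ L] (n d : ℕ) where
  a : (Fin (n + 1) →₀ ℕ) → L
  D : (Fin (n + 1) →₀ ℕ) → Derivation ℤ L L
  δ : Place κ L → ℕ
  ρ : Place κ L → ℕ
  x : Fin (n + 1) → L
  z : Fin (n + 1) → κ
  E : Fin (n + 1) → Derivation ℤ L L
  ξ₀ : Fin (n + 1) → ℕ
  ξ₁ : Fin (n + 1) → ℕ
  hDa : ∀ I ∈ expo (Fin (n + 1)) d, ∀ J ∈ expo (Fin (n + 1)) d,
    D I (a J) = if I = J then 1 else 0
  hδ : (Function.support δ).Finite
  hρ : (Function.support ρ).Finite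
  hD : MinorBound κ D {I | I ∈ expo (Fin (n + 1)) d} δ ρ
  hE : ∀ j, PoleBound κ (E j) δ
  hEz : ∀ i j, E i (algebraMap κ L (z j)) = if i = j then 1 else 0
  hEx : ∀ i j, E i (x j) = 0
  h0 : ∑ j, (ξ₀ j : L) * x j = 1
  hmax : ∀ w : Place κ L, vmax w.1 x ≤ max 1 (w.1 (∑ j, (ξ₁ j : L) * x j))

namespace DatG

variable {κ L : Type*} [Field κ] [Field L] [Algebra κ L] {n d : ℕ} (X : DatG κ (L := L) n d)

/-- the first affine coordinate of the projection to the plane -/
noncomputable def y₁ : L := ∑ j, (X.ξ₁ j : L) * X.x j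

/-- the second affine coordinate of the projection to the plane -/
noncomputable def y : L := ∑ j, algebraMap κ L (X.z j) * X.x j

/-- the point of the plane -/
noncomputable def p : Fin 3 → L := ![1, X.y₁, X.y]

/-- the total size of the poles -/
noncomputable def Δ : ℤ := ∑ᶠ w, (X.δ w : ℤ)

theorem Δ_nonneg : 0 ≤ X.Δ := by
  unfold Δ
  exact finsum_nonneg fun w => Int.natCast_nonneg _

/-- the total size of the ramification -/
noncomputable def R : ℤ := ∑ᶠ w, (X.ρ w : ℤ)

theorem R_nonneg : 0 ≤ X.R := by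
  unfold R
  exact finsum_nonneg fun w => Int.natCast_nonneg _

theorem x_ne_zero : X.x ≠ 0 := by
  intro h
  have h1 := X.h0
  rw [h] at h1
  simp at h1

/-- the value of the form at the point -/
noncomputable def v : L := Fval d X.a X.x

theorem p_ne_zero : X.p ≠ 0 := by
  intro h
  have h1 := congrFun h 0
  simp [p] at h1

end DatG

namespace DatG

variable {κ L : Type*} [Field κ] [Field L] [Algebra κ L] {n d : ℕ} (X : DatG κ (L := L) n d)

/-- the three linear forms defining the projection to the plane -/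
noncomputable def lf (i : Fin 3) : MvPolynomial (Fin (n + 1)) κ :=
  ![∑ j, MvPolynomial.C (X.ξ₀ j : κ) * MvPolynomial.X j,
    ∑ j, MvPolynomial.C (X.ξ₁ j : κ) * MvPolynomial.X j,
    ∑ j, MvPolynomial.C (X.z j) * MvPolynomial.X j] i

/-- the monomial with exponent `K` in the three linear forms -/
noncomputable def Kf (K : M3 d) : MvPolynomial (Fin (n + 1)) κ := ∏ i, X.lf i ^ K.1 i

private theorem lf_hom (i : Fin 3) : (X.lf i).IsHomogeneous 1 := by
  have h : ∀ c : Fin (n + 1) → κ,
      (∑ j, MvPolynomial.C (c j) * MvPolynomial.X j : MvPolynomial (Fin (n + 1)) κ).IsHomogeneous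
        1 := by
    intro c
    refine MvPolynomial.IsHomogeneous.sum _ _ _ fun j _ => ?_
    have h1 := (MvPolynomial.isHomogeneous_C (Fin (n + 1)) (c j)).mul
      (MvPolynomial.isHomogeneous_X κ j)
    simpa using h1
  fin_cases i
  · exact h _
  · exact h _
  · exact h _

theorem Kf_hom (K : M3 d) : (X.Kf K).IsHomogeneous d := by
  have h1 : ∑ i : Fin 3, 1 * K.1 i = d := by
    have h2 := mem_expo.1 K.2
    rw [Finsupp.degree_eq_sum] at h2
    simpa using h2
  have h3 := MvPolynomial.IsHomogeneous.prod Finset.univ (fun i => X.lf i ^ K.1 i)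
    (fun i => 1 * K.1 i) (fun i _ => (X.lf_hom i).pow (K.1 i))
  rw [h1] at h3
  exact h3

private theorem lf_eval (i : Fin 3) : MvPolynomial.aeval X.x (X.lf i) = X.p i := by
  have h : ∀ c : Fin (n + 1) → κ, MvPolynomial.aeval X.x
      (∑ j, MvPolynomial.C (c j) * MvPolynomial.X j : MvPolynomial (Fin (n + 1)) κ) =
        ∑ j, algebraMap κ L (c j) * X.x j := by
    intro c
    rw [map_sum]
    refine Finset.sum_congr rfl fun j _ => ?_
    rw [map_mul, MvPolynomial.aeval_C, MvPolynomial.aeval_X]
  fin_cases i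
  · refine (h _).trans ?_
    change _ = (1 : L)
    rw [← X.h0]
    exact Finset.sum_congr rfl fun j _ => by rw [map_natCast]
  · refine (h _).trans ?_
    change _ = X.y₁
    unfold y₁
    exact Finset.sum_congr rfl fun j _ => by rw [map_natCast]
  · exact h _

theorem Kf_eval (K : M3 d) : MvPolynomial.aeval X.x (X.Kf K) = xi d X.p K := by
  -- the values of the three linear forms at `x` are `1`, `y₁`, `y`
  unfold Kf xi
  rw [map_prod]
  refine Finset.prod_congr rfl fun i _ => ?_
  rw [map_pow, X.lf_eval]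

theorem Kf_eval' (K : M3 d) :
    ∑ I ∈ expo (Fin (n + 1)) d, algebraMap κ L ((X.Kf K).coeff I) * mon X.x I = xi d X.p K := by
  -- `Kf_eval` and `Kf_hom`
  classical
  rw [← X.Kf_eval K, MvPolynomial.aeval_def, MvPolynomial.eval₂_eq']
  symm
  refine Finset.sum_subset ?_ ?_
  · intro I hI
    rw [mem_expo]
    have h1 := X.Kf_hom K (MvPolynomial.mem_support_iff.1 hI)
    rw [← h1, Finsupp.degree_eq_weight_one]
    rfl
  · intro I _ hI
    rw [MvPolynomial.notMem_support_iff.1 hI, map_zero, zero_mul]

end DatG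

end Pool.Agent.Lib.MP_44a246_ntG
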