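import Mathlib
import Pool.Agent.Lib.MP_44a246_ntG.G1

/-!
The combinations of the derivations, and the basic relation.
-/

namespace Pool.Agent.Lib.MP_44a246_ntG

open Pool.Agent.Lib.MP_44a246_nt
open Pool.Agent.Lib.MP_44a246_ntL
open Pool.Agent.Lib.MP_44a246_ntS
open Pool.Agent.Lib.MP_44a246_ntX
open Pool.Agent.Lib.MP_e52354_nt
open WithZero Module

namespace DatG

variable {κ L : Type*} [Field κ] [Field L] [Algebra κ L] {n d : ℕ} (X : DatG κ (L := L) n d)

/-- the combination of the derivations with the coefficients of `Kf K` -/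
noncomputable def DK (K : M3 d) : Derivation ℤ L L :=
  ∑ I ∈ expo (Fin (n + 1)) d, algebraMap κ L ((X.Kf K).coeff I) • X.D I

theorem DK_apply (K : M3 d) (c : L) :
    X.DK K c = ∑ I ∈ expo (Fin (n + 1)) d, algebraMap κ L ((X.Kf K).coeff I) * X.D I c := by
  rw [DK, ← Derivation.coeFnAddMonoidHom_apply, map_sum, Finset.sum_apply]
  rfl

private theorem sh1c_const (w : Place κ L) (c : κ) : w.1 (algebraMap κ L c) ≤ 1 := by
  by_cases h : c = 0
  · rw [h, map_zero, map_zero]; exact zero_le
  · exact (w.2.2 c h).le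

/-- the minors of the combinations of the derivations -/
theorem DK_minor (w : Place κ L) {m : ℕ} (K : Fin m → M3 d) (c : Fin m → L)
    (hc : ∀ j, w.1 (c j) ≤ 1) :
    w.1 (Matrix.det (Matrix.of fun i j => X.DK (K i) (c j))) ≤
      exp ((m * X.δ w + X.ρ w : ℕ) : ℤ) := by
  classical
  have h1 : (Matrix.of fun i j => X.DK (K i) (c j)).det =
      (Matrix.detRowAlternating (R := L) (n := Fin m)).toMultilinearMap
        (fun i => ∑ I ∈ expo (Fin (n + 1)) d,
          algebraMap κ L ((X.Kf (K i)).coeff I) • (fun j => X.D I (c j))) := by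
    change Matrix.det _ = Matrix.det _
    congr 1
    ext i j
    rw [Matrix.of_apply, DK_apply, Finset.sum_apply]
    rfl
  rw [h1, MultilinearMap.map_sum_finset]
  refine Valuation.map_sum_le w.1 fun r hr => ?_
  rw [Fintype.mem_piFinset] at hr
  rw [MultilinearMap.map_smul_univ, smul_eq_mul, map_mul, map_prod]
  have h2 : ∏ i, w.1 (algebraMap κ L ((X.Kf (K i)).coeff (r i))) ≤ 1 :=
    Finset.prod_le_one' fun i _ => sh1c_const w _
  have h3 : w.1 ((Matrix.detRowAlternating (R := L) (n := Fin m)).toMultilinearMap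
      (fun i => fun j => X.D (r i) (c j))) ≤ exp ((m * X.δ w + X.ρ w : ℕ) : ℤ) :=
    X.hD w m r c (fun i => hr i) hc
  calc _ ≤ 1 * exp ((m * X.δ w + X.ρ w : ℕ) : ℤ) := mul_le_mul' h2 h3
    _ = _ := one_mul _

/-- the basic relation -/
theorem rel (K : M3 d) : ∑ j, grad d X.a X.x j * X.DK K (X.x j) = X.DK K X.v - xi d X.p K := by
  have h1 := D_Fval d X.a (X.DK K) X.x
  have h2 : ∑ J ∈ expo (Fin (n + 1)) d, X.DK K (X.a J) * mon X.x J = xi d X.p K := by
    rw [← X.Kf_eval' K]
    refine Finset.sum_congr rfl fun J hJ => ?_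
    congr 1
    rw [X.DK_apply, Finset.sum_congr rfl fun I hI => by rw [X.hDa I hI J hJ]]
    simp [hJ]
  rw [h2] at h1
  unfold v
  linear_combination -h1

end DatG

end Pool.Agent.Lib.MP_44a246_ntG
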