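import Mathlib
import Pool.Agent.Lib.MP_44a246_ntG.G2

/-!
Heights of the point and of its projections.
-/

namespace Pool.Agent.Lib.MP_44a246_ntG

open Pool.Agent.Lib.MP_44a246_nt
open Pool.Agent.Lib.MP_44a246_ntL
open Pool.Agent.Lib.MP_44a246_ntS
open Pool.Agent.Lib.MP_44a246_ntX
open Pool.Agent.Lib.MP_e52354_nt
open WithZero Module

private theorem val_sum_le {L : Type*} [Field L] (v : Valuation L ℤᵐ⁰) {m : ℕ}
    (c x : Fin m → L) (hc : ∀ j, v (c j) ≤ 1) : v (∑ j, c j * x j) ≤ vmax v x := by
  refine v.map_sum_le fun j _ => ?_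
  rw [map_mul]
  calc v (c j) * v (x j) ≤ 1 * vmax v x := mul_le_mul' (hc j) (le_vmax v x j)
    _ = vmax v x := one_mul _

private theorem val_natCast_le {L : Type*} [Field L] (v : Valuation L ℤᵐ⁰) (m : ℕ) :
    v (m : L) ≤ 1 := natCast_mem v.integer m

private theorem val_const_le {κ L : Type*} [Field κ] [Field L] [Algebra κ L] (w : Place κ L)
    (c : κ) : w.1 (algebraMap κ L c) ≤ 1 := by
  by_cases hc : c = 0
  · rw [hc, map_zero, map_zero]
    exact zero_le
  · rw [w.2.2 c hc]

namespace DatG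

section

variable {κ L : Type*} [Field κ] [Field L] [Algebra κ L] {n d : ℕ} (X : DatG κ (L := L) n d)

theorem vmax_x (w : Place κ L) : vmax w.1 X.x = max 1 (w.1 X.y₁) := by
  -- `hmax`; conversely `1 = ∑ ξ₀ j x j` and `y₁` are integral combinations of the `x j`
  refine le_antisymm (X.hmax w) (max_le ?_ ?_)
  · have h1 := val_sum_le w.1 (fun j => (X.ξ₀ j : L)) X.x (fun j => val_natCast_le _ _)
    rwa [X.h0, map_one] at h1
  · exact val_sum_le w.1 (fun j => (X.ξ₁ j : L)) X.x (fun j => val_natCast_le _ _)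

theorem one_le_vmax (w : Place κ L) : 1 ≤ vmax w.1 X.x := by
  rw [X.vmax_x]
  exact le_max_left _ _

theorem vmax_p (w : Place κ L) : vmax w.1 X.p = vmax w.1 X.x := by
  -- `w y ≤ vmax w x` because the `z j` are constants
  have hy : w.1 X.y ≤ vmax w.1 X.x :=
    val_sum_le w.1 (fun j => algebraMap κ L (X.z j)) X.x (fun j => val_const_le w _)
  have hy₁ : w.1 X.y₁ ≤ vmax w.1 X.x := by
    rw [X.vmax_x]
    exact le_max_right _ _
  have h1 : 1 ≤ vmax w.1 X.x := X.one_le_vmax w
  apply le_antisymm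
  · refine vmax_le w.1 fun i => ?_
    fin_cases i
    · simpa [p] using h1
    · simpa [p] using hy₁
    · simpa [p] using hy
  · rw [X.vmax_x]
    refine max_le ?_ ?_
    · have h2 := le_vmax w.1 X.p 0
      simpa [p] using h2
    · have h2 := le_vmax w.1 X.p 1
      simpa [p] using h2

theorem height_p : height κ X.p = height κ X.x := by
  unfold height
  exact finsum_congr fun w => by rw [X.vmax_p]

theorem height_y₁ : height κ ![1, X.y₁] = height κ X.x := by
  unfold height
  exact finsum_congr fun w => by rw [X.vmax_x, vmax_pair]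

end

end DatG

end Pool.Agent.Lib.MP_44a246_ntG
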