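import Mathlib
import Pool.Agent.Lib.MP_44a246_ntG.G3

/-!
The rows and the space spanned by them.
-/

namespace Pool.Agent.Lib.MP_44a246_ntG

open Pool.Agent.Lib.MP_44a246_nt
open Pool.Agent.Lib.MP_44a246_ntL
open Pool.Agent.Lib.MP_44a246_ntS
open Pool.Agent.Lib.MP_44a246_ntX
open Pool.Agent.Lib.MP_e52354_nt
open WithZero Module

namespace DatG

section

variable {κ L : Type*} [Field κ] [Field L] [Algebra κ L] {n d : ℕ} (X : DatG κ (L := L) n d)

/-- the row of an element -/
noncomputable def row (c : L) : M3 d → L := fun K => X.DK K c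

theorem row_add (c c' : L) : X.row (c + c') = X.row c + X.row c' := by
  funext K
  exact map_add (X.DK K) c c'

theorem row_mul (c c' : L) : X.row (c * c') = c • X.row c' + c' • X.row c := by
  funext K
  exact Derivation.leibniz (X.DK K) c c'

theorem row_natCast (c : ℕ) : X.row (c : L) = 0 := by
  funext K
  exact Derivation.map_natCast (X.DK K) c

/-- the space spanned by the rows of the coordinates -/
noncomputable def Ux : Submodule L (M3 d → L) :=
  Submodule.span L (Set.range fun j => X.row (X.x j))

/-- the space spanned by the rows of the coordinates and of the value of the form -/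
noncomputable def U : Submodule L (M3 d → L) := X.Ux ⊔ Submodule.span L {X.row X.v}

theorem row_zero : X.row 0 = 0 := by
  have := X.row_natCast 0
  rwa [Nat.cast_zero] at this

theorem xi_eq : xi d X.p = X.row X.v - ∑ j, grad d X.a X.x j • X.row (X.x j) := by
  -- `rel`
  funext K
  have h2 := X.rel K
  rw [Pi.sub_apply, Finset.sum_apply]
  simp only [Pi.smul_apply, smul_eq_mul]
  have h3 : ∑ j, grad d X.a X.x j * X.row (X.x j) K = X.row X.v K - xi d X.p K := h2
  rw [h3]
  ring

theorem xi_mem_U : xi d X.p ∈ X.U := by
  rw [X.xi_eq]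
  refine Submodule.sub_mem _ (Submodule.mem_sup_right (Submodule.mem_span_singleton_self _))
    (Submodule.sum_mem _ fun j _ => Submodule.smul_mem _ _ ?_)
  exact Submodule.mem_sup_left (Submodule.subset_span ⟨j, rfl⟩)

/-- the space if the value of the form is zero -/
theorem U_of_zero (hv : X.v = 0) : X.U = X.Ux := by
  unfold U
  rw [hv, X.row_zero, Submodule.span_zero_singleton, sup_bot_eq]

theorem finrank_Ux : finrank L X.Ux ≤ n := by
  -- `∑ j, ξ₀ j • row (x j) = row 1 = 0` is a nontrivial relation between the `n + 1` generators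
  -- (`h0`: not all `ξ₀ j` are zero in `L`)
  classical
  obtain ⟨j₀, hj₀⟩ : ∃ j, (X.ξ₀ j : L) ≠ 0 := by
    by_contra hcon
    push Not at hcon
    have h1 := X.h0
    simp only [hcon, zero_mul, Finset.sum_const_zero] at h1
    exact zero_ne_one h1
  have hrel : ∑ j, (X.ξ₀ j : L) • X.row (X.x j) = 0 := by
    have h1 : ∀ s : Finset (Fin (n + 1)), X.row (∑ j ∈ s, (X.ξ₀ j : L) * X.x j) =
        ∑ j ∈ s, (X.ξ₀ j : L) • X.row (X.x j) := by
      intro s
      induction s using Finset.induction_on with
      | empty =>
        rw [Finset.sum_empty, Finset.sum_empty]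
        have := X.row_natCast 0
        rwa [Nat.cast_zero] at this
      | insert j s hj ih =>
        rw [Finset.sum_insert hj, Finset.sum_insert hj, row_add, ih, row_mul, row_natCast,
          smul_zero, add_zero]
    rw [← h1, X.h0]
    have := X.row_natCast 1
    rwa [Nat.cast_one] at this
  have hspan : X.Ux = Submodule.span L
      (Set.range fun j : {j : Fin (n + 1) // j ≠ j₀} => X.row (X.x j)) := by
    apply le_antisymm
    · refine Submodule.span_le.mpr ?_
      rintro _ ⟨j, rfl⟩
      by_cases hj : j = j₀
      · subst hj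
        have h1 : X.row (X.x j) = - ((X.ξ₀ j : L)⁻¹ •
            ∑ i ∈ Finset.univ.erase j, (X.ξ₀ i : L) • X.row (X.x i)) := by
          rw [← Finset.add_sum_erase _ _ (Finset.mem_univ j)] at hrel
          rw [← smul_neg, eq_inv_smul_iff₀ hj₀]
          exact eq_neg_of_add_eq_zero_left hrel
        simp only
        rw [SetLike.mem_coe, h1]
        refine Submodule.neg_mem _ (Submodule.smul_mem _ _ (Submodule.sum_mem _ fun i hi => ?_))
        rw [Finset.mem_erase] at hi
        exact Submodule.smul_mem _ _ (Submodule.subset_span ⟨⟨i, hi.1⟩, rfl⟩)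
      · exact Submodule.subset_span ⟨⟨j, hj⟩, rfl⟩
    · refine Submodule.span_mono ?_
      rintro _ ⟨j, rfl⟩
      exact ⟨j, rfl⟩
  rw [hspan]
  refine (finrank_range_le_card _).trans ?_
  rw [Fintype.card_subtype_compl, Fintype.card_fin, Fintype.card_subtype_eq]
  omega

end

end DatG

end Pool.Agent.Lib.MP_44a246_ntG
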