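import Mathlib
import Pool.Agent.Lib.MP_44a246_ntG.G4
import Pool.Agent.Lib.MP_44a246_ntS.SH2c

/-!
The local bound for the minors of the rows.
-/

namespace Pool.Agent.Lib.MP_44a246_ntG

open Pool.Agent.Lib.MP_44a246_nt
open Pool.Agent.Lib.MP_44a246_ntL
open Pool.Agent.Lib.MP_44a246_ntS
open Pool.Agent.Lib.MP_44a246_ntX
open Pool.Agent.Lib.MP_e52354_nt
open WithZero Module

namespace DatG

section

variable {κ L : Type*} [Field κ] [Field L] [Algebra κ L] {n d : ℕ} (X : DatG κ (L := L) n d)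

/-- the minors of the rows of integral elements -/
theorem row_minor (w : Place κ L) {m : ℕ} (K : Fin m → M3 d) (c : Fin m → L)
    (hc : ∀ j, w.1 (c j) ≤ 1) :
    w.1 (Matrix.det (Matrix.of fun i j => X.row (c i) (K j))) ≤
      exp ((m * X.δ w + X.ρ w : ℕ) : ℤ) := by
  rw [← Matrix.det_transpose]
  exact X.DK_minor w K c hc

/-- the row of the inverse -/
theorem row_inv {c : L} (hc : c ≠ 0) : X.row c = (- c ^ 2) • X.row c⁻¹ := by
  funext K
  have h4 : X.row (c * c⁻¹) K = 0 := by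
    rw [mul_inv_cancel₀ hc]
    have := congrFun (X.row_natCast 1) K
    simpa using this
  rw [X.row_mul] at h4
  simp only [Pi.add_apply, Pi.smul_apply, smul_eq_mul] at h4 ⊢
  have h5 : c⁻¹ * X.row c K = - (c * X.row c⁻¹ K) := eq_neg_of_add_eq_zero_right h4
  calc X.row c K = c * (c⁻¹ * X.row c K) := by
        rw [← mul_assoc, mul_inv_cancel₀ hc, one_mul]
    _ = - c ^ 2 * X.row c⁻¹ K := by rw [h5]; ring

/-- the local bound for the minors of the rows -/
theorem pl_rows (w : Place κ L) {e : ℕ} (σ : Fin e → Fin (n + 1)) :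
    pl w.1 (fun i => X.row (X.x (σ i))) ≤
      vmax w.1 X.x ^ (e + 1) * exp ((e * X.δ w + X.ρ w : ℕ) : ℤ) := by
  classical
  obtain ⟨l, hl0, hlmax, hle⟩ := exists_vmax w.1 X.x_ne_zero
  have hvl0 : w.1 (X.x l) ≠ 0 := (Valuation.ne_zero_iff _).2 hl0
  have hone : 1 ≤ w.1 (X.x l) := by
    rw [← hlmax]; exact X.one_le_vmax w
  have hy' : w.1 (X.x l)⁻¹ ≤ 1 := by
    rw [map_inv₀]
    exact inv_le_one_of_one_le₀ hone
  have hyi : ∀ i, w.1 (X.x i * (X.x l)⁻¹) ≤ 1 := by
    intro i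
    rw [map_mul, map_inv₀]
    calc w.1 (X.x i) * (w.1 (X.x l))⁻¹ ≤ w.1 (X.x l) * (w.1 (X.x l))⁻¹ :=
          mul_le_mul_left (hle i) _
      _ = 1 := mul_inv_cancel₀ hvl0
  have hp : (X.x l)⁻¹ ≠ 0 := inv_ne_zero hl0
  -- the relation between the rows
  have hrel : ∀ i K, X.row (X.x i) K = X.x l * (X.row (X.x i * (X.x l)⁻¹) K -
      (X.x i * (X.x l)⁻¹) / (X.x l)⁻¹ * X.row (X.x l)⁻¹ K) := by
    intro i K
    have h1 : X.x i = (X.x i * (X.x l)⁻¹) * X.x l := by
      rw [mul_assoc, inv_mul_cancel₀ hl0, mul_one]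
    have h2 : X.row (X.x i) K = (X.x i * (X.x l)⁻¹) * X.row (X.x l) K +
        X.x l * X.row (X.x i * (X.x l)⁻¹) K := by
      conv_lhs => rw [h1]
      rw [X.row_mul]
      simp [Pi.add_apply, Pi.smul_apply, smul_eq_mul]
    have h3 : X.row (X.x l) K = - X.x l ^ 2 * X.row (X.x l)⁻¹ K := congrFun (X.row_inv hl0) K
    rw [h2, h3, div_inv_eq_mul]
    ring
  unfold pl
  refine vmax_le w.1 fun K => ?_
  set q : Fin e → L := fun i => X.x (σ i) * (X.x l)⁻¹ with hq
  set y : Fin (e + 1) → L := Fin.cons (X.x l)⁻¹ q with hy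
  have hyle : ∀ i, w.1 (y i) ≤ 1 := by
    intro i
    refine Fin.cases ?_ (fun i => ?_) i
    · exact hy'
    · exact hyi (σ i)
  set M : Matrix (Fin (e + 1)) (Fin (e + 1)) L := Matrix.of (Fin.cons
    (Fin.cons (X.x l)⁻¹ (fun j => X.row (X.x l)⁻¹ (K j)))
    (fun i => (Fin.cons (q i) (fun j => X.row (q i) (K j)) : Fin (e + 1) → L))) with hM
  have hdet := det_border hp q (fun j => X.row (X.x l)⁻¹ (K j)) (fun i j => X.row (q i) (K j))
  have hM0 : ∀ i, M i 0 = y i := by
    intro i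
    refine Fin.cases ?_ (fun i => ?_) i
    · simp [hM, hy]
    · simp [hM, hy]
  have hMs : ∀ i j, M i (Fin.succ j) = X.row (y i) (K j) := by
    intro i j
    refine Fin.cases ?_ (fun i => ?_) i
    · simp [hM, hy]
    · simp [hM, hy]
  have hbound : w.1 M.det ≤ 1 * exp ((e * X.δ w + X.ρ w : ℕ) : ℤ) := by
    refine det_column_le w.1 M (fun i => ?_) (fun i => ?_)
    · rw [hM0]
      exact hyle i
    · have h1 : M.submatrix i.succAbove Fin.succ =
          Matrix.of fun i' j => X.row (y (i.succAbove i')) (K j) := by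
        ext i' j
        rw [Matrix.submatrix_apply, hMs, Matrix.of_apply]
      rw [h1]
      exact X.row_minor w K (fun i' => y (i.succAbove i')) fun j => hyle _
  have hfinal : (Matrix.of fun i j => X.row (X.x (σ i)) (K j)).det = X.x l ^ (e + 1) * M.det := by
    have h1 : (Matrix.of fun i j => X.row (X.x (σ i)) (K j)) = X.x l •
        (Matrix.of fun i j => X.row (q i) (K j) - q i / (X.x l)⁻¹ * X.row (X.x l)⁻¹ (K j)) := by
      ext i j
      rw [Matrix.of_apply, Matrix.smul_apply, Matrix.of_apply, smul_eq_mul]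
      exact hrel (σ i) (K j)
    rw [h1, Matrix.det_smul, Fintype.card_fin]
    have h2 : M.det = (X.x l)⁻¹ *
        (Matrix.of fun i j => X.row (q i) (K j) - q i / (X.x l)⁻¹ * X.row (X.x l)⁻¹ (K j)).det :=
      hdet
    rw [h2, pow_succ, mul_assoc, ← mul_assoc (X.x l) (X.x l)⁻¹ _, mul_inv_cancel₀ hl0, one_mul]
  rw [one_mul] at hbound
  rw [hfinal, map_mul, map_pow, hlmax]
  exact mul_le_mul_right hbound _

/-- the local bound for the minors of the rows of arbitrary elements -/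
theorem pl_rows_gen (w : Place κ L) {m : ℕ} (c : Fin m → L) (γ : Fin m → ℤᵐ⁰)
    (h1 : ∀ i, 1 ≤ γ i) (h2 : ∀ i, w.1 (c i) ≤ γ i) :
    pl w.1 (fun i => X.row (c i)) ≤ (∏ i, γ i ^ 2) * exp ((m * X.δ w + X.ρ w : ℕ) : ℤ) := by
  classical
  unfold pl
  refine vmax_le w.1 fun K => ?_
  set c' : Fin m → L := fun i => if w.1 (c i) ≤ 1 then c i else (c i)⁻¹ with hc'
  set t : Fin m → L := fun i => if w.1 (c i) ≤ 1 then 1 else - c i ^ 2 with ht
  have hc'1 : ∀ i, w.1 (c' i) ≤ 1 := by
    intro i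
    by_cases h : w.1 (c i) ≤ 1
    · simp only [hc', if_pos h]
      exact h
    · simp only [hc', if_neg h]
      rw [map_inv₀]
      exact inv_le_one_of_one_le₀ (not_le.1 h).le
  have ht1 : ∀ i, w.1 (t i) ≤ γ i ^ 2 := by
    intro i
    by_cases h : w.1 (c i) ≤ 1
    · simp only [ht, if_pos h]
      rw [map_one]
      exact one_le_pow₀ (h1 i)
    · simp only [ht, if_neg h]
      rw [Valuation.map_neg, map_pow]
      exact pow_le_pow_left' (h2 i) 2
  have hrow : ∀ i j, X.row (c i) (K j) = t i * X.row (c' i) (K j) := by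
    intro i j
    by_cases h : w.1 (c i) ≤ 1
    · simp only [ht, hc', if_pos h, one_mul]
    · have hc0 : c i ≠ 0 := by
        rintro h0
        apply h
        rw [h0, map_zero]
        exact zero_le
      simp only [ht, hc', if_neg h]
      exact congrFun (X.row_inv hc0) (K j)
  have hdet : (Matrix.of fun i j => X.row (c i) (K j)).det =
      (∏ i, t i) * (Matrix.of fun i j => X.row (c' i) (K j)).det := by
    rw [← Matrix.det_mul_column]
    congr 1
    ext i j
    rw [Matrix.of_apply, Matrix.of_apply, hrow, Matrix.of_apply]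
  rw [hdet, map_mul, map_prod]
  exact mul_le_mul' (Finset.prod_le_prod' fun i _ => ht1 i) (X.row_minor w K c' hc'1)

end

end DatG

end Pool.Agent.Lib.MP_44a246_ntG
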