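import Mathlib
import Pool.Agent.Lib.MP_44a246_ntS.SL1b
import Pool.Agent.Lib.MP_44a246_ntS.SJ5d
import Pool.Agent.Lib.MP_44a246_ntG.G6

/-!
The parametrisation of the point by the plane curve (Kronecker).
-/

namespace Pool.Agent.Lib.MP_44a246_ntG

open Pool.Agent.Lib.MP_44a246_nt
open Pool.Agent.Lib.MP_44a246_ntL
open Pool.Agent.Lib.MP_44a246_ntS
open Pool.Agent.Lib.MP_44a246_ntX
open Pool.Agent.Lib.MP_e52354_nt
open WithZero Module Polynomial

/-- the plane curve through the projected point -/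
structure CrvG {κ L : Type*} [Field κ] [Field L] [Algebra κ L] {n d : ℕ} (X : DatG κ (L := L) n d)
    (b : ℕ) (A : L[X][X]) : Prop where
  irr : Irreducible A
  box : Box b A
  deg : A.natDegree ≠ 0
  zero : A.evalEval X.y₁ X.y = 0
  der : (derivative A).evalEval X.y₁ X.y ≠ 0
  one : ∃ i j, (A.coeff i).coeff j = 1

namespace DatG

section

variable {κ L : Type*} [Field κ] [Field L] [Algebra κ L] {n d : ℕ} (X : DatG κ (L := L) n d)

theorem E_y₁ (i : Fin (n + 1)) : X.E i X.y₁ = 0 := by
  unfold y₁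
  rw [map_sum]
  refine Finset.sum_eq_zero fun j _ => ?_
  rw [Derivation.leibniz, X.hEx, Derivation.map_natCast, smul_zero, smul_zero, add_zero]

theorem E_y (i : Fin (n + 1)) : X.E i X.y = X.x i := by
  -- `hEz`, `hEx`
  unfold y
  rw [map_sum, Finset.sum_eq_single i]
  · rw [Derivation.leibniz, X.hEx, X.hEz, if_pos rfl, smul_zero, zero_add, smul_eq_mul, mul_one]
  · intro j _ hj
    rw [Derivation.leibniz, X.hEx, X.hEz, if_neg (Ne.symm hj), smul_zero, smul_zero, add_zero]
  · intro h
    exact absurd (Finset.mem_univ _) h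

/-- the polynomials parametrising the coordinates -/
noncomputable def B (A : L[X][X]) (i : Fin (n + 1)) : L[X][X] := - cd (X.E i) A

variable {b : ℕ} {A : L[X][X]} (hA : CrvG X b A)

include hA in
/-- **Kronecker's parametrisation** -/
theorem B_eval (i : Fin (n + 1)) :
    (derivative A).evalEval X.y₁ X.y * X.x i = (X.B A i).evalEval X.y₁ X.y := by
  -- apply `E i` to `A.evalEval y₁ y = 0` (`chain`, `E_y₁`, `E_y`)
  have h := chain (X.E i) A X.y₁ X.y
  rw [hA.zero, map_zero, X.E_y₁, X.E_y, mul_zero, add_zero] at h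
  have h2 : (X.B A i).evalEval X.y₁ X.y = -(cd (X.E i) A).evalEval X.y₁ X.y := by
    simp [B, Polynomial.evalEval]
  rw [h2]
  linear_combination -h

include hA in
theorem B_box (i : Fin (n + 1)) : Box b (X.B A i) := by
  have h := cd_box (D := X.E i) hA.box
  unfold B
  refine ⟨?_, fun k => ?_⟩
  · rw [natDegree_neg]
    exact h.1
  · rw [coeff_neg, natDegree_neg]
    exact h.2 k

include hA in
theorem B_le (i : Fin (n + 1)) (w : Place κ L) :
    gg w.1 (X.B A i) ≤ gg w.1 A ^ 2 * exp (X.δ w : ℤ) := by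
  unfold B
  rw [Valuation.map_neg]
  exact cd_ne_zero_le (X.hE i) hA.one w

end

end DatG

end Pool.Agent.Lib.MP_44a246_ntG
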