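import Mathlib
import Pool.Agent.Lib.MP_44a246_ntG.G9
import Pool.Agent.Lib.MP_44a246_ntS.SC2

/-!
The rows of the coefficients.
-/

namespace Pool.Agent.Lib.MP_44a246_ntG

open Pool.Agent.Lib.MP_44a246_nt
open Pool.Agent.Lib.MP_44a246_ntL
open Pool.Agent.Lib.MP_44a246_ntS
open Pool.Agent.Lib.MP_44a246_ntX
open Pool.Agent.Lib.MP_e52354_nt
open WithZero Module Polynomial

namespace DatG

section

variable {κ L : Type*} [Field κ] [Field L] [Algebra κ L] {n d : ℕ} (X : DatG κ (L := L) n d)

/-- the row of a value of a polynomial -/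
theorem row_eval {V : Submodule L (M3 d → L)} {P : L[X][X]}
    (hP : ∀ i j, X.row ((P.coeff i).coeff j) ∈ V) (h1 : X.row X.y₁ ∈ V) (h2 : X.row X.y ∈ V) :
    X.row (P.evalEval X.y₁ X.y) ∈ V := by
  -- `row_add`, `row_mul`, `evalEval_eq`
  have hadd : ∀ c c', X.row c ∈ V → X.row c' ∈ V → X.row (c + c') ∈ V := fun c c' h h' => by
    rw [row_add]
    exact V.add_mem h h'
  have hmul : ∀ c c', X.row c ∈ V → X.row c' ∈ V → X.row (c * c') ∈ V := fun c c' h h' => by
    rw [row_mul]
    exact V.add_mem (V.smul_mem _ h') (V.smul_mem _ h)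
  have h0 : X.row 0 ∈ V := by
    have := X.row_natCast 0
    rw [Nat.cast_zero] at this
    rw [this]
    exact V.zero_mem
  have hone : X.row 1 ∈ V := by
    have := X.row_natCast 1
    rw [Nat.cast_one] at this
    rw [this]
    exact V.zero_mem
  have hpow : ∀ (c : L) (k : ℕ), X.row c ∈ V → X.row (c ^ k) ∈ V := by
    intro c k hc
    induction k with
    | zero => rw [pow_zero]; exact hone
    | succ k ih => rw [pow_succ]; exact hmul _ _ ih hc
  rw [evalEval_eq]
  refine Finset.sum_induction _ (fun c => X.row c ∈ V) hadd h0 fun i _ => ?_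
  refine Finset.sum_induction _ (fun c => X.row c ∈ V) hadd h0 fun j _ => ?_
  exact hmul _ _ (hmul _ _ (hP i j) (hpow _ _ h1)) (hpow _ _ h2)

/-- the space spanned by the rows of the coefficients (for the coordinates with index in `J`) and
of `y₁` -/
noncomputable def VJ (J : Finset (Fin (n + 1))) (b : ℕ) (A : L[X][X]) : Submodule L (M3 d → L) :=
  (Finset.univ.sup fun t : Option ↥J × Fin (b + 1) × Fin (b + 1) =>
    Submodule.span L
      {X.row (((t.1.elim A (fun k => X.B A k.1)).coeff t.2.1).coeff t.2.2)}) ⊔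
  Submodule.span L {X.row X.y₁}

private theorem y₁_mem_b (J : Finset (Fin (n + 1))) (b : ℕ) (A : L[X][X]) :
    X.row X.y₁ ∈ X.VJ J b A :=
  Submodule.mem_sup_right (Submodule.mem_span_singleton_self _)

private theorem le_sup_b {γ M : Type*} [Fintype γ] [AddCommGroup M] [Module L M]
    (f : γ → Submodule L M) (t : γ) : f t ≤ Finset.univ.sup f :=
  Finset.le_sup (Finset.mem_univ t)

/-- the rows of the coefficients are in the space -/
private theorem coeff_mem_b {J : Finset (Fin (n + 1))} {b : ℕ} {A : L[X][X]} (t : Option ↥J)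
    (hB : Box b (t.elim A (fun k => X.B A k.1))) (i j : ℕ) :
    X.row (((t.elim A (fun k => X.B A k.1)).coeff i).coeff j) ∈ X.VJ J b A := by
  by_cases hi : i < b + 1
  · by_cases hj : j < b + 1
    · refine Submodule.mem_sup_left ?_
      have h1 := le_sup_b (fun t : Option ↥J × Fin (b + 1) × Fin (b + 1) =>
          Submodule.span L
            {X.row (((t.1.elim A (fun k => X.B A k.1)).coeff t.2.1).coeff t.2.2)})
          (t, (⟨i, hi⟩, ⟨j, hj⟩))
      exact h1 (Submodule.mem_span_singleton_self _)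
    · have h1 : ((t.elim A (fun k => X.B A k.1)).coeff i).coeff j = 0 :=
        coeff_eq_zero_of_natDegree_lt (lt_of_le_of_lt (hB.2 i) (by omega))
      rw [h1, X.row_zero]
      exact Submodule.zero_mem _
  · have h1 : (t.elim A (fun k => X.B A k.1)).coeff i = 0 :=
      coeff_eq_zero_of_natDegree_lt (lt_of_le_of_lt hB.1 (by omega))
    rw [h1, coeff_zero, X.row_zero]
    exact Submodule.zero_mem _

/-- the value as a sum over a box -/
private theorem evalEval_box {b : ℕ} {P : L[X][X]} (hP : Box b P) (y₁ y : L) :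
    P.evalEval y₁ y = ∑ i ∈ Finset.range (b + 1), ∑ j ∈ Finset.range (b + 1),
      (P.coeff i).coeff j * (y₁ ^ j * y ^ i) := by
  unfold evalEval
  rw [eval_eq_sum_range' (lt_of_le_of_lt hP.1 (Nat.lt_succ_self b)), eval_finsetSum]
  refine Finset.sum_congr rfl fun i _ => ?_
  rw [eval_mul, eval_pow, eval_C,
    eval_eq_sum_range' (lt_of_le_of_lt (hP.2 i) (Nat.lt_succ_self b)), Finset.sum_mul]
  refine Finset.sum_congr rfl fun j _ => ?_
  ring

variable {J : Finset (Fin (n + 1))} {b : ℕ} {A : L[X][X]} (hA : CrvG X b A)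

include hA in
theorem row_y_mem : X.row X.y ∈ X.VJ J b A := by
  -- apply the derivations to `A.evalEval y₁ y = 0` (`chain`): `A_Y(p) • row y` is a combination of
  -- the rows of the coefficients of `A` and of `row y₁`
  rw [← Submodule.smul_mem_iff _ hA.der]
  have h1 : (derivative A).evalEval X.y₁ X.y • X.row X.y =
      -(∑ i ∈ Finset.range (b + 1), ∑ j ∈ Finset.range (b + 1),
        (X.y₁ ^ j * X.y ^ i) • X.row ((A.coeff i).coeff j)) -
      (dX A).evalEval X.y₁ X.y • X.row X.y₁ := by
    funext K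
    have h2 := chain (X.DK K) A X.y₁ X.y
    rw [hA.zero, map_zero, evalEval_box (cd_box hA.box)] at h2
    have h3 : ∑ i ∈ Finset.range (b + 1), ∑ j ∈ Finset.range (b + 1),
        ((cd (X.DK K) A).coeff i).coeff j * (X.y₁ ^ j * X.y ^ i) =
        (∑ i ∈ Finset.range (b + 1), ∑ j ∈ Finset.range (b + 1),
        (X.y₁ ^ j * X.y ^ i) • X.row ((A.coeff i).coeff j)) K := by
      rw [Finset.sum_apply]
      refine Finset.sum_congr rfl fun i _ => ?_
      rw [Finset.sum_apply]
      refine Finset.sum_congr rfl fun j _ => ?_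
      rw [cd_coeff, Pi.smul_apply, smul_eq_mul, mul_comm]
      rfl
    rw [h3] at h2
    simp only [Pi.sub_apply, Pi.neg_apply, Pi.smul_apply, smul_eq_mul]
    have h4 : X.row X.y K = X.DK K X.y := rfl
    have h5 : X.row X.y₁ K = X.DK K X.y₁ := rfl
    rw [h4, h5]
    linear_combination -h2
  rw [h1]
  refine Submodule.sub_mem _ (Submodule.neg_mem _ (Submodule.sum_mem _ fun i _ =>
    Submodule.sum_mem _ fun j _ => Submodule.smul_mem _ _ ?_))
    (Submodule.smul_mem _ _ (X.y₁_mem_b J b A))
  exact X.coeff_mem_b none hA.box i j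

include hA in
theorem row_x_mem {j : Fin (n + 1)} (hj : j ∈ J) : X.row (X.x j) ∈ X.VJ J b A := by
  -- apply the derivations to `B_eval`: `A_Y(p) • row (x j) + x j • row (A_Y(p)) = row (B_j(p))`,
  -- and `row_eval` for `derivative A` (its coefficients are integral multiples of those of `A`)
  -- and for `B A j`; the coefficients with index larger than `b` vanish (`Box`)
  have hy : X.row X.y ∈ X.VJ J b A := X.row_y_mem hA
  have hy₁ := X.y₁_mem_b J b A
  have h1 : X.row ((derivative A).evalEval X.y₁ X.y) ∈ X.VJ J b A := by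
    refine X.row_eval (fun i k => ?_) hy₁ hy
    have h2 : ((derivative A).coeff i).coeff k = (A.coeff (i + 1)).coeff k * ((i + 1 : ℕ) : L) := by
      rw [coeff_derivative]
      have h3 : ((i : L[X]) + 1) = C (((i + 1 : ℕ) : L)) := by
        push_cast
        rw [map_add, map_natCast, map_one]
      rw [h3, coeff_mul_C]
    rw [h2, row_mul, row_natCast, smul_zero, zero_add]
    exact Submodule.smul_mem _ _ (X.coeff_mem_b none hA.box (i + 1) k)
  have h2 : X.row ((X.B A j).evalEval X.y₁ X.y) ∈ X.VJ J b A :=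
    X.row_eval (fun i k => X.coeff_mem_b (some ⟨j, hj⟩) (X.B_box hA j) i k) hy₁ hy
  rw [← X.B_eval hA j, row_mul] at h2
  rw [← Submodule.smul_mem_iff _ hA.der]
  exact (Submodule.add_mem_iff_left _ (Submodule.smul_mem _ _ h1)).1 h2

include hA in
theorem xi_mem_VJ (hJ : X.Ux ≤ Submodule.span L (Set.range fun j : ↥J => X.row (X.x j))) :
    xi d X.p ∈ X.VJ J b A ⊔ Submodule.span L {X.row X.v} := by
  rw [X.xi_eq]
  refine Submodule.sub_mem _ (Submodule.mem_sup_right (Submodule.mem_span_singleton_self _))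
    (Submodule.mem_sup_left (Submodule.sum_mem _ fun j _ => Submodule.smul_mem _ _ ?_))
  have h1 : X.row (X.x j) ∈ Submodule.span L (Set.range fun j : ↥J => X.row (X.x j)) :=
    hJ (Submodule.subset_span ⟨j, rfl⟩)
  refine Submodule.span_le.mpr ?_ h1
  rintro _ ⟨⟨k, hk⟩, rfl⟩
  exact X.row_x_mem hA hk

end

end DatG

end Pool.Agent.Lib.MP_44a246_ntG
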