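import Mathlib
import Pool.Agent.Lib.MP_44a246_ntW.W23
import Pool.Agent.Lib.MP_44a246_ntG.G11

/-!
The dimension of the space of the rows, from the span theorem.
-/

namespace Pool.Agent.Lib.MP_44a246_ntG

open Pool.Agent.Lib.MP_44a246_nt
open Pool.Agent.Lib.MP_44a246_ntL
open Pool.Agent.Lib.MP_44a246_ntS
open Pool.Agent.Lib.MP_44a246_ntX
open Pool.Agent.Lib.MP_44a246_ntW
open Pool.Agent.Lib.MP_e52354_nt
open WithZero Module Polynomial

section

variable {κ L : Type*} [Field κ] [Field L] [Algebra κ L] {n d : ℕ}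
  (X : DatG κ (L := L) n d) {b : ℕ} {A : L[X][X]}

theorem row_sum {γ : Type*} (s : Finset γ) (f : γ → L) :
    X.row (∑ i ∈ s, f i) = ∑ i ∈ s, X.row (f i) := by
  classical
  induction s using Finset.induction_on with
  | empty =>
    rw [Finset.sum_empty, Finset.sum_empty]
    have := X.row_natCast 0
    rwa [Nat.cast_zero] at this
  | insert j s hj ih => rw [Finset.sum_insert hj, Finset.sum_insert hj, X.row_add, ih]

/-- **The dimension of the space of the rows.** -/
theorem finrank_VJ_le (J I : Finset (Fin (n + 1))) (lam : Fin (n + 1) → Fin (n + 1) → L)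
    (hlam : ∀ j, cq (X.E j) A = ∑ i ∈ I, C (C (lam j i)) * cq (X.E i) A) :
    finrank L (X.VJ J b A) ≤ (I.card + 1) * (b + 1) ^ 2 + I.card * J.card + 1 := by
  classical
  let g : ((Option ↥I × Fin (b + 1) × Fin (b + 1)) ⊕ (↥J × ↥I)) ⊕ Unit → M3 d → L :=
    Sum.elim (Sum.elim
      (fun t => X.row (((t.1.elim A (fun k => X.B A k.1)).coeff t.2.1).coeff t.2.2))
      (fun t => X.row (lam t.1.1 t.2.1))) (fun _ => X.row X.y₁)
  have hle : X.VJ J b A ≤ Submodule.span L (Set.range g) := by
    unfold DatG.VJ
    refine sup_le (Finset.sup_le fun t _ => ?_) ?_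
    · rw [Submodule.span_singleton_le_iff_mem]
      obtain ⟨o, i, j⟩ := t
      cases o with
      | none => exact Submodule.subset_span ⟨Sum.inl (Sum.inl (none, i, j)), rfl⟩
      | some k =>
        obtain ⟨k, hk⟩ := k
        have h1 : (((X.B A k).coeff i).coeff j) =
            ∑ t ∈ I, lam k t * ((X.B A t).coeff i).coeff j := by
          have h2 : X.B A k = ∑ t ∈ I, C (C (lam k t)) * X.B A t := by
            unfold DatG.B
            rw [cd_eq_cq, hlam k, ← Finset.sum_neg_distrib]
            refine Finset.sum_congr rfl fun t _ => ?_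
            rw [cd_eq_cq]
            ring
          rw [h2, finsetSum_coeff, finsetSum_coeff]
          exact Finset.sum_congr rfl fun t _ => by rw [coeff_C_mul, coeff_C_mul]
        change X.row (((X.B A k).coeff i).coeff j) ∈ _
        rw [h1, row_sum]
        refine Submodule.sum_mem _ fun t ht => ?_
        rw [X.row_mul]
        refine Submodule.add_mem _ (Submodule.smul_mem _ _ ?_) (Submodule.smul_mem _ _ ?_)
        · exact Submodule.subset_span ⟨Sum.inl (Sum.inl (some ⟨t, ht⟩, i, j)), rfl⟩
        · exact Submodule.subset_span ⟨Sum.inl (Sum.inr (⟨k, hk⟩, ⟨t, ht⟩)), rfl⟩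
    · rw [Submodule.span_singleton_le_iff_mem]
      exact Submodule.subset_span ⟨Sum.inr (), rfl⟩
  refine (Submodule.finrank_mono hle).trans ((finrank_range_le_card g).trans (le_of_eq ?_))
  simp only [Fintype.card_sum, Fintype.card_prod, Fintype.card_option, Fintype.card_coe,
    Fintype.card_fin, Fintype.card_unit]
  ring

end

end Pool.Agent.Lib.MP_44a246_ntG
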