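import Mathlib
import Pool.Agent.Lib.MP_44a246_ntS.SI2
import Pool.Agent.Lib.MP_44a246_ntG.G6

/-!
Step A: the first plane curve.
-/

namespace Pool.Agent.Lib.MP_44a246_ntG

open Pool.Agent.Lib.MP_44a246_nt
open Pool.Agent.Lib.MP_44a246_ntL
open Pool.Agent.Lib.MP_44a246_ntS
open Pool.Agent.Lib.MP_44a246_ntX
open Pool.Agent.Lib.MP_e52354_nt
open WithZero Module

variable {κ L : Type*} [Field κ] [IsAlgClosed κ] [CharZero κ] [Field L] [CharZero L]
  [Algebra κ L]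

/-- **Step A.** -/
theorem stepA (h : IsFF κ L) {n d : ℕ} (X : DatG κ (L := L) n d) {T S r q : ℕ} {Δ : ℤ}
    (hT : 1 ≤ T) (hS : 8 * T ≤ S) (hSd : 2 * S ≤ d)
    (hN : 2 * r + 10 * S * T + T * (r + 2 + q) ≤ T * d) (hr : finrank L X.U ≤ r) (hΔ : 0 ≤ Δ)
    (hht : ht κ X.U ≤ (r + 1) * height κ X.x + r * Δ + q * height κ X.x) :
    height κ X.x ≤ r * Δ ∨
      ∃ (a : ℕ) (A : MvPolynomial (Fin 3) L), a ≤ 2 * T ∧ A ≠ 0 ∧ A.IsHomogeneous a ∧
        MvPolynomial.eval X.p A = 0 ∧ 3 * (polyHeight κ A * S) ≤ 8 * height κ X.x := by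
  -- Let `H = height κ X.x ≥ 0`; if `H = 0` the first alternative holds. `μ = H / T`,
  -- `τ = 2 H / T`. `exists_hasSl` for `τ` and `X.U` gives `W ≤ X.U` with
  -- `ht W + τ * finrank W ≤ ht U + τ * finrank U ≤ (n + 1) H + n Δ + τ n` (`ht_U`, `finrank_U`),
  -- and `finrank W ≥ 1` (it contains `xi d p ≠ 0`).
  -- `exists_isSl` for `μ` in degree `d` and `S`: `Q_d`, `Q`. `W ≤ Q_d` (`HasSl.le_isSl`).
  -- `numA1` (with `IsSl.bound`, `height_xi`, `height_p`): `Q ≠ ⊤`, as `finrank Q < card (M3 S)`.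
  -- `core` for `Q` and `W`, `hkill` from `IsSl.ctr_eq_zero` (`s = S`, `t = d - S`). Then `numA2`,
  -- `numA3`, `numA4`.
  have hn : 1 ≤ r := by
    refine le_trans ?_ hr
    rw [Nat.one_le_iff_ne_zero, Ne, Submodule.finrank_eq_zero]
    intro h4
    have h1 := X.xi_mem_U
    rw [h4, Submodule.mem_bot] at h1
    exact xi_ne_zero X.p_ne_zero h1
  rcases le_or_gt (height κ X.x) 0 with hH | hH
  · left
    have : 0 ≤ (r : ℤ) * Δ := mul_nonneg (by positivity) hΔ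
    omega
  have hp := X.p_ne_zero
  have hHr : (0 : ℝ) < (height κ X.x : ℝ) := by exact_mod_cast hH
  have hTr : (0 : ℝ) < (T : ℝ) := by exact_mod_cast hT
  obtain ⟨W, hWU, hW, hWb⟩ := exists_hasSl h (2 * (height κ X.x : ℝ) / T) X.xi_mem_U
  obtain ⟨Qd, hQd⟩ := exists_isSl h ((height κ X.x : ℝ) / T) (xi d X.p)
  obtain ⟨Q, hQ⟩ := exists_isSl h ((height κ X.x : ℝ) / T) (xi S X.p)
  have hμ : (height κ X.x : ℝ) / T < 2 * (height κ X.x : ℝ) / T := by
    rw [mul_div_assoc]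
    have : 0 < (height κ X.x : ℝ) / T := div_pos hHr hTr
    linarith
  have hWQ : W ≤ Qd := hW.le_isSl h hμ hQd
  have hb := hQ.bound h (xi_ne_zero hp)
  rw [height_xi h S hp, X.height_p] at hb
  push_cast at hb
  have hQ0 : (0 : ℝ) ≤ (ht κ Q : ℝ) := by exact_mod_cast ht_nonneg h Q
  obtain ⟨hq1, hq2⟩ := numA1 hT hS hHr hQ0 hb
  have hcard : Fintype.card (M3 S) = N3 S := card_M3 S
  have hSr : (0 : ℝ) < (S : ℝ) := by
    have : 0 < S := by omega
    exact_mod_cast this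
  have hQtop : Q ≠ ⊤ := by
    intro h1
    have h2 : finrank L Q = N3 S := by
      rw [h1, finrank_top, Module.finrank_fintype_fun_eq_card, hcard]
    rw [h2] at hq2
    have : 0 < 3 * (S : ℝ) ^ 2 / 8 := by positivity
    linarith
  have hrankQ : 1 ≤ finrank L Q := by
    rw [Nat.one_le_iff_ne_zero, Ne, Submodule.finrank_eq_zero]
    intro h4
    have h1 := hQ.mem
    rw [h4, Submodule.mem_bot] at h1
    exact xi_ne_zero hp h1
  have hrankW : 1 ≤ finrank L W := by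
    rw [Nat.one_le_iff_ne_zero, Ne, Submodule.finrank_eq_zero]
    intro h4
    have h1 := hW.mem
    rw [h4, Submodule.mem_bot] at h1
    exact xi_ne_zero hp h1
  obtain ⟨a, e, A, hs, hA0, hA, h1, h2, h3⟩ := core h hp hSd hQtop hQ.mem hW.mem
    (fun G hG u hu => IsSl.ctr_eq_zero h (show S + (d - S) = d by omega) hQd hQ hG.1 hG.2
      (hWQ hu))
  rw [hcard] at h1 h2
  have hcard' : Fintype.card (M3 e) = N3 e := card_M3 e
  rw [hcard'] at h2
  have ha := numA2 hT hS hs hq1 h2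
  have hα : 0 ≤ polyHeight κ A := polyHeight_nonneg h hA0
  have hαr : (0 : ℝ) ≤ (polyHeight κ A : ℝ) := by exact_mod_cast hα
  have hrq : (1 : ℝ) ≤ (finrank L Q : ℝ) := by exact_mod_cast hrankQ
  have h1' : (polyHeight κ A : ℝ) * ((N3 S : ℝ) - finrank L Q) ≤ S * (height κ X.x : ℝ) := by
    have h4 : (polyHeight κ A : ℝ) * ((N3 S : ℝ) - finrank L Q) ≤ ht κ Q := by exact_mod_cast h1
    have h5 : 0 ≤ (height κ X.x : ℝ) / T * ((finrank L Q : ℝ) - 1) :=
      mul_nonneg (div_pos hHr hTr).le (by linarith)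
    linarith
  have hA3 := numA3 (show 8 ≤ S by omega) hαr hq2 h1'
  rcases h3 with h3 | h3
  · right
    refine ⟨a, A, ha, hA0, hA, h3, ?_⟩
    have h4 : (3 : ℝ) * ((polyHeight κ A : ℝ) * S) ≤ 8 * (height κ X.x : ℝ) := by linarith
    exact_mod_cast h4
  · left
    rw [X.height_p] at h3
    have hUr : (ht κ X.U : ℝ) ≤ ((r : ℝ) + 1) * (height κ X.x : ℝ) + r * (Δ : ℝ) +
        q * (height κ X.x : ℝ) := by
      exact_mod_cast hht
    have hτ : 0 ≤ 2 * (height κ X.x : ℝ) / T := (div_pos hHr hTr |>.le.trans hμ.le)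
    have hrU : (finrank L X.U : ℝ) ≤ r := by exact_mod_cast hr
    have hrW : (1 : ℝ) ≤ (finrank L W : ℝ) := by exact_mod_cast hrankW
    have hW1 : (ht κ W : ℝ) - q * (height κ X.x : ℝ) ≤ ((r : ℝ) + 1) * (height κ X.x : ℝ) +
        r * (Δ : ℝ) + 2 * (height κ X.x : ℝ) / T * ((r : ℝ) - 1) := by
      have h5 := mul_le_mul_of_nonneg_left hrU hτ
      have h6 := mul_le_mul_of_nonneg_left hrW hτ
      have h7 : 2 * (height κ X.x : ℝ) / T * ((r : ℝ) - 1) =
        2 * (height κ X.x : ℝ) / T * r - 2 * (height κ X.x : ℝ) / T * 1 := by ring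
      linarith
    have hW2 : ((d : ℝ) - a - 2 * e + 1) * (height κ X.x : ℝ) ≤
        (ht κ W : ℝ) + e * (2 * e + 1) * (polyHeight κ A : ℝ) := by
      exact_mod_cast h3
    have hΔr : (0 : ℝ) ≤ (Δ : ℝ) := by exact_mod_cast hΔ
    have hrd : r + 2 + q ≤ d := by
      have h5 : T * (r + 2 + q) ≤ T * d := by omega
      exact Nat.le_of_mul_le_mul_left h5 (by omega)
    obtain ⟨d', rfl⟩ : ∃ d', d = d' + q := ⟨d - q, by omega⟩
    have hN' : 2 * r + 10 * S * T + T * (r + 2) ≤ T * d' := by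
      have h5 : T * (r + 2 + q) = T * (r + 2) + T * q := by ring
      have h6 : T * (d' + q) = T * d' + T * q := by ring
      omega
    have hW2' : ((d' : ℝ) - a - 2 * e + 1) * (height κ X.x : ℝ) ≤
        ((ht κ W : ℝ) - q * (height κ X.x : ℝ)) + e * (2 * e + 1) * (polyHeight κ A : ℝ) := by
      push_cast at hW2
      linarith
    have := numA4 hT hS hs hN' hn hHr hΔr hαr hA3 hW1 hW2'
    exact_mod_cast this

end Pool.Agent.Lib.MP_44a246_ntG
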