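import Mathlib
import Pool.Agent.Lib.MP_44a246_ntS.SK2
import Pool.Agent.Lib.MP_44a246_ntG.G7

/-!
Step B: the second plane curve.
-/

namespace Pool.Agent.Lib.MP_44a246_ntG

open Pool.Agent.Lib.MP_44a246_nt
open Pool.Agent.Lib.MP_44a246_ntL
open Pool.Agent.Lib.MP_44a246_ntS
open Pool.Agent.Lib.MP_44a246_ntX
open Pool.Agent.Lib.MP_e52354_nt
open WithZero Module Polynomial

variable {κ L : Type*} [Field κ] [IsAlgClosed κ] [CharZero κ] [Field L] [CharZero L]
  [Algebra κ L]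

/-- the second plane curve, for an arbitrary space `V` which contains `xi d p` -/
theorem stepB_gen (h : IsFF κ L) {n d : ℕ} (X : DatG κ (L := L) n d) {s N : ℕ} {η : ℤ}
    {V : Submodule L (M3 d → L)} (hξ : xi d X.p ∈ V) (hV : finrank L V ≤ N) (hht : ht κ V ≤ η)
    (hs : 32 * N ≤ s ^ 2) (hsd : 8 * s ≤ d) (hs1 : 1 ≤ s) (hpos : 0 < height κ X.x)
    (hη : 16 * η < d * height κ X.x) :
    ∃ (a : ℕ) (A' : MvPolynomial (Fin 3) L), a * s ≤ 4 * N ∧ A' ≠ 0 ∧ A'.IsHomogeneous a ∧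
      MvPolynomial.eval X.p A' = 0 ∧ 7 * (polyHeight κ A' * s ^ 2) ≤ 16 * η := by
  set H := height κ X.x with hHdef
  have hη16 : 16 * (η : ℝ) < d * (H : ℝ) := by exact_mod_cast hη
  have hη0 : 0 ≤ η := (ht_nonneg h V).trans hht
  have hη0R : (0 : ℝ) ≤ (η : ℝ) := by exact_mod_cast hη0
  have hHR : (0 : ℝ) < (H : ℝ) := by exact_mod_cast hpos
  have hN1 : 1 ≤ N := by
    by_contra hN0
    have h0 : finrank L V = 0 := by omega
    rw [Submodule.finrank_eq_zero] at h0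
    rw [h0, Submodule.mem_bot] at hξ
    exact xi_ne_zero X.p_ne_zero hξ
  have hNR : (0 : ℝ) < (N : ℝ) := by exact_mod_cast hN1
  have hd1 : 1 ≤ d := by omega
  have hdR : (0 : ℝ) < (d : ℝ) := by exact_mod_cast hd1
  have hhtVR : (ht κ V : ℝ) ≤ η := by exact_mod_cast hht
  -- the space with large slopes
  have hτpos : 0 < (d : ℝ) / (4 * N) * H := by positivity
  obtain ⟨W, hWV, hWsl, hWht⟩ := exists_hasSl h ((d : ℝ) / (4 * N) * H) hξ
  have hW1 : (ht κ W : ℝ) ≤ η + d * H / 4 := by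
    have h1 : (0 : ℝ) ≤ (d : ℝ) / (4 * N) * H * finrank L W := by positivity
    have h2 : (d : ℝ) / (4 * N) * H * finrank L V ≤ (d : ℝ) / (4 * N) * H * N :=
      mul_le_mul_of_nonneg_left (by exact_mod_cast hV) hτpos.le
    have h3 : (d : ℝ) / (4 * N) * H * N = d * H / 4 := by field_simp
    linarith
  obtain ⟨Qd, hQd⟩ := exists_isSl (κ := κ) h ((d : ℝ) / (8 * N) * H) (xi d X.p)
  obtain ⟨Qs, hQs⟩ := exists_isSl (κ := κ) h ((d : ℝ) / (8 * N) * H) (xi s X.p)
  have hμτ : (d : ℝ) / (8 * N) * H < (d : ℝ) / (4 * N) * H := by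
    have h1 : (d : ℝ) / (8 * N) * H = ((d : ℝ) / (4 * N) * H) / 2 := by
      field_simp
      ring
    rw [h1]
    linarith
  have hWQ : W ≤ Qd := HasSl.le_isSl h hμτ hWsl hQd
  -- the contraction by a power of the first variable
  have hsd' : s + (d - s) = d := by omega
  set c : Matrix (M3 s) (M3 d) κ := ctr ((MvPolynomial.X 0) ^ (d - s)) s d with hcdef
  have hcmap : c.map (algebraMap κ L) =
      ctr ((MvPolynomial.X 0 : MvPolynomial (Fin 3) L) ^ (d - s)) s d := by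
    rw [hcdef, ← ctr_map (algebraMap κ L), map_pow, MvPolynomial.map_X]
  set V' := V.map (c.map (algebraMap κ L)).mulVecLin with hV'def
  have hxiV' : xi s X.p ∈ V' := by
    refine ⟨xi d X.p, hξ, ?_⟩
    rw [Matrix.mulVecLin_apply, hcmap]
    have hhom : ((MvPolynomial.X 0 : MvPolynomial (Fin 3) L) ^ (d - s)).IsHomogeneous (d - s) := by
      have := (MvPolynomial.isHomogeneous_X L (0 : Fin 3)).pow (d - s)
      rwa [one_mul] at this
    rw [ctr_xi hsd' hhom X.p, map_pow, MvPolynomial.eval_X]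
    have hp0 : X.p 0 = 1 := rfl
    rw [hp0, one_pow, one_smul]
  have hhtV' : ht κ V' ≤ ht κ V := ht_map_const_le h c V
  have hfrV' : finrank L V' ≤ N := (Submodule.finrank_map_le _ V).trans hV
  -- the space `Q`
  set Q := Qs ⊔ V' with hQdef
  have hsup := hQs.sup h hxiV'
  rw [← hQdef] at hsup
  have hmq : finrank L V' ≤ finrank L Q := Submodule.finrank_mono le_sup_right
  have hhtV'R : (ht κ V' : ℝ) ≤ η := by
    have : (ht κ V' : ℝ) ≤ ht κ V := by exact_mod_cast hhtV'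
    linarith
  have hQ0 : (0 : ℝ) ≤ (ht κ Q : ℝ) := by exact_mod_cast ht_nonneg h Q
  obtain ⟨hB1, hB2, hB3⟩ := numB1 (N := N) (d := d) (s := s) (q := finrank L Q)
    (m := finrank L V') hHR hd1 hN1 (η := η) (by linarith) hfrV' hs hQ0 hmq hsup hhtV'R
  have hcard : Fintype.card (M3 s) = N3 s := card_M3 s
  have hs1R : (1 : ℝ) ≤ (s : ℝ) := by exact_mod_cast hs1
  have hQtop : Q ≠ ⊤ := by
    intro htop
    have h1 : finrank L Q = Fintype.card (M3 s) := by
      rw [htop, finrank_top, Module.finrank_fintype_fun_eq_card]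
    rw [h1, hcard, sub_self] at hB3
    nlinarith
  obtain ⟨a, e, A', hae, hA'0, hA'hom, hA'1, hA'2, hA'3⟩ := core h X.p_ne_zero (s := s) (d := d)
    (by omega) hQtop (show xi s X.p ∈ Q from (le_sup_right : V' ≤ Q) hxiV') hWsl.mem
    (fun G hG u hu => IsSl.ctr_eq_zero h hsd' hQd hQs hG.1
      (fun v hv => hG.2 v ((le_sup_left : Qs ≤ Q) hv)) (hWQ hu))
  have hα0 : 0 ≤ polyHeight κ A' := polyHeight_nonneg h hA'0
  have hα0R : (0 : ℝ) ≤ (polyHeight κ A' : ℝ) := by exact_mod_cast hα0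
  have hα1 : (polyHeight κ A' : ℝ) * (7 * (s : ℝ) ^ 2 / 16) ≤ η := by
    have h1 : (polyHeight κ A' : ℝ) * ((N3 s : ℝ) - finrank L Q) ≤ (ht κ Q : ℝ) := by
      rw [hcard] at hA'1
      exact_mod_cast hA'1
    have h2 : (polyHeight κ A' : ℝ) * (7 * (s : ℝ) ^ 2 / 16) ≤
        (polyHeight κ A' : ℝ) * ((N3 s : ℝ) - finrank L Q) :=
      mul_le_mul_of_nonneg_left hB3 hα0R
    linarith
  rw [hcard, show Fintype.card (M3 e) = N3 e from card_M3 e] at hA'2
  refine ⟨a, A', numB2 hae hB2 hA'2, hA'0, hA'hom, ?_, ?_⟩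
  · rcases hA'3 with h1 | h1
    · exact h1
    · exfalso
      rw [X.height_p] at h1
      have h2 : ((d : ℝ) - a - 2 * e + 1) * H ≤ ht κ W + e * (2 * e + 1) * polyHeight κ A' := by
        exact_mod_cast h1
      exact numB3 hae hsd hs1 hHR hη0R hη16 hα0R hα1 hW1 h2
  · have h1 : (7 : ℝ) * ((polyHeight κ A' : ℝ) * s ^ 2) ≤ 16 * η := by linarith
    exact_mod_cast h1

end Pool.Agent.Lib.MP_44a246_ntG
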