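import Mathlib
import Pool.Agent.Lib.MP_44a246_ntG.G8
import Pool.Agent.Lib.MP_44a246_ntG.G9
import Pool.Agent.Lib.MP_44a246_ntS.SK2
import Pool.Agent.Lib.MP_44a246_ntS.SJ3b

/-!
Scaling of the curve; the end of step B.
-/

namespace Pool.Agent.Lib.MP_44a246_ntG

open Pool.Agent.Lib.MP_44a246_nt
open Pool.Agent.Lib.MP_44a246_ntL
open Pool.Agent.Lib.MP_44a246_ntS
open Pool.Agent.Lib.MP_44a246_ntX

open Pool.Agent.Lib.MP_e52354_nt
open WithZero Module Polynomial

variable {κ L : Type*} [Field κ] [IsAlgClosed κ] [CharZero κ] [Field L] [CharZero L]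
  [Algebra κ L]

omit [CharZero L] in
/-- the curve may be scaled such that the leading coefficient is monic -/
theorem exists_monic (h : IsFF κ L) {n d : ℕ} {X : DatG κ (L := L) n d} {b : ℕ} {A : L[X][X]}
    (hA : CrvG X b A) : ∃ A', CrvG X b A' ∧ gh κ A' = gh κ A ∧ A'.leadingCoeff.Monic := by
  set c := A.leadingCoeff.leadingCoeff with hc
  have hc0 : c ≠ 0 := leadingCoeff_ne_zero.2 (leadingCoeff_ne_zero.2 hA.irr.ne_zero)
  have hci : c⁻¹ ≠ 0 := inv_ne_zero hc0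
  have hCi : (C c⁻¹ : L[X]) ≠ 0 := C_ne_zero.2 hci
  have hu : IsUnit (C (C c⁻¹) : L[X][X]) := by
    rw [isUnit_C, isUnit_C, isUnit_iff_ne_zero]
    exact hci
  have hdeg : (C (C c⁻¹) * A).natDegree = A.natDegree := natDegree_C_mul hCi
  have hlc : (C (C c⁻¹) * A).leadingCoeff = C c⁻¹ * A.leadingCoeff := by
    rw [leadingCoeff_mul, leadingCoeff_C]
  have hmon : (C (C c⁻¹) * A).leadingCoeff.Monic := by
    rw [hlc]
    unfold Monic
    rw [leadingCoeff_mul, leadingCoeff_C, ← hc, inv_mul_cancel₀ hc0]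
  refine ⟨C (C c⁻¹) * A, ⟨?_, ⟨?_, fun i => ?_⟩, ?_, ?_, ?_, ?_⟩, gh_smul h hA.irr.ne_zero hci, hmon⟩
  · obtain ⟨u, hu⟩ := hu
    rw [← hu]
    exact (irreducible_units_mul u).2 hA.irr
  · rw [hdeg]
    exact hA.box.1
  · rw [coeff_C_mul, natDegree_C_mul hci]
    exact hA.box.2 i
  · rw [hdeg]
    exact hA.deg
  · rw [evalEval_mul, hA.zero, mul_zero]
  · rw [derivative_C_mul, evalEval_mul]
    refine mul_ne_zero ?_ hA.der
    rw [evalEval_C, eval_C]
    exact hci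
  · exact ⟨_, _, hmon⟩

omit [CharZero L] in
/-- the end of step B: a curve of small degree and small height through the point is a multiple of
the curve of minimal degree -/
theorem stepB_fin (h : IsFF κ L) {n d : ℕ} (X : DatG κ (L := L) n d) {b s N : ℕ} {A : L[X][X]}
    (hA : CrvG X b A) (hs : 32 * N ≤ s ^ 2) (hs1 : 1 ≤ s)
    {c η : ℤ} (hη : η ≤ c * height κ X.x + 4 * N * gh κ A)
    (hbez : 28 * N * s * gh κ A + 16 * b * η < 7 * s ^ 2 * height κ X.x)
    {a : ℕ} {A' : MvPolynomial (Fin 3) L} (ha : a * s ≤ 4 * N) (hA'0 : A' ≠ 0)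
    (hA'h : A'.IsHomogeneous a) (hA'e : MvPolynomial.eval X.p A' = 0)
    (hA'b : 7 * (polyHeight κ A' * s ^ 2) ≤ 16 * η) :
    5 * (gh κ A * s ^ 2) ≤ 16 * (c * height κ X.x) := by
  have hα : 0 ≤ gh κ A := gh_nonneg h hA.irr.ne_zero
  have hα' : 0 ≤ gh κ (deh A') := gh_nonneg h (deh_ne_zero hA'h hA'0)
  have hBe : (deh A').evalEval X.y₁ X.y = 0 := by
    rw [deh_eval]
    exact hA'e
  rw [← gh_deh hA'h] at hA'b
  have hBd : ((deh A').natDegree : ℤ) ≤ a := by exact_mod_cast (deh_box hA'h).1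
  have hAd : (A.natDegree : ℤ) ≤ b := by exact_mod_cast hA.box.1
  have haZ : (a : ℤ) * s ≤ 4 * N := by exact_mod_cast ha
  have hs0 : (0 : ℤ) < s := by exact_mod_cast hs1
  have hlt : ((deh A').natDegree : ℤ) * gh κ A + A.natDegree * gh κ (deh A') <
      height κ X.x := by
    have h1 : ((deh A').natDegree : ℤ) * gh κ A + A.natDegree * gh κ (deh A') ≤
        a * gh κ A + b * gh κ (deh A') :=
      add_le_add (mul_le_mul_of_nonneg_right hBd hα) (mul_le_mul_of_nonneg_right hAd hα')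
    have h2 : 7 * (s : ℤ) ^ 2 * (a * gh κ A) ≤ 28 * N * s * gh κ A := by
      have h3 : (a : ℤ) * s * (7 * s * gh κ A) ≤ 4 * N * (7 * s * gh κ A) :=
        mul_le_mul_of_nonneg_right haZ (by positivity)
      calc 7 * (s : ℤ) ^ 2 * (a * gh κ A) = (a : ℤ) * s * (7 * s * gh κ A) := by ring
        _ ≤ 4 * N * (7 * s * gh κ A) := h3
        _ = 28 * N * s * gh κ A := by ring
    have h4 : 7 * (s : ℤ) ^ 2 * (b * gh κ (deh A')) ≤ 16 * b * η := by
      have h5 : (b : ℤ) * (7 * (gh κ (deh A') * s ^ 2)) ≤ b * (16 * η) :=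
        mul_le_mul_of_nonneg_left hA'b (by positivity)
      calc 7 * (s : ℤ) ^ 2 * (b * gh κ (deh A')) = b * (7 * (gh κ (deh A') * s ^ 2)) := by ring
        _ ≤ b * (16 * η) := h5
        _ = 16 * b * η := by ring
    have h6 : 7 * (s : ℤ) ^ 2 * (a * gh κ A + b * gh κ (deh A')) <
        7 * (s : ℤ) ^ 2 * height κ X.x := by
      rw [mul_add]
      exact lt_of_le_of_lt (add_le_add h2 h4) hbez
    have h7 : a * gh κ A + b * gh κ (deh A') < height κ X.x :=
      lt_of_mul_lt_mul_left h6 (by positivity)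
    exact lt_of_le_of_lt h1 h7
  have hdvd : A ∣ deh A' := by
    refine bez h hA.irr hA.deg hA.zero hBe ?_
    rw [X.height_y₁]
    exact hlt
  have hle : gh κ A ≤ gh κ (deh A') := gh_le_of_dvd h hdvd (deh_ne_zero hA'h hA'0)
  have h8 : gh κ A * (s : ℤ) ^ 2 ≤ gh κ (deh A') * s ^ 2 :=
    mul_le_mul_of_nonneg_right hle (by positivity)
  have h9 : 32 * (N : ℤ) * gh κ A ≤ s ^ 2 * gh κ A :=
    mul_le_mul_of_nonneg_right (by exact_mod_cast hs) hα
  linarith

end Pool.Agent.Lib.MP_44a246_ntG
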