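import Mathlib
import Pool.Agent.Lib.MP_44a246_ntS.SM1
import Pool.Agent.Lib.MP_44a246_ntG.G10

/-!
Step C: values at the point.
-/

namespace Pool.Agent.Lib.MP_44a246_ntG

open Pool.Agent.Lib.MP_44a246_nt
open Pool.Agent.Lib.MP_44a246_ntL
open Pool.Agent.Lib.MP_44a246_ntS
open Pool.Agent.Lib.MP_44a246_ntX
open Pool.Agent.Lib.MP_e52354_nt
open WithZero Module Polynomial

section

variable {κ L : Type*} [Field κ] [Field L] [Algebra κ L] {n d : ℕ} (X : DatG κ (L := L) n d)
  {b : ℕ} {A : L[X][X]} (hA : CrvG X b A)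

include hA in
/-- a form which vanishes at the point, at the parametrisation -/
theorem FB_zero {e : ℕ} {a : (Fin (n + 1) →₀ ℕ) → L} (hz : Fval e a X.x = 0) :
    (FB e a (X.B A)).evalEval X.y₁ X.y = 0 := by
  rw [FB_eval]
  have h1 : (fun j => (X.B A j).evalEval X.y₁ X.y) =
      fun j => (derivative A).evalEval X.y₁ X.y * X.x j := by
    funext j
    rw [X.B_eval hA j]
  rw [h1]
  set c := (derivative A).evalEval X.y₁ X.y with hc
  have h2 : Fval e a (fun j => c * X.x j) = c ^ e * Fval e a X.x := by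
    unfold Fval
    rw [Finset.mul_sum]
    refine Finset.sum_congr rfl fun I hI => ?_
    have hdeg : ∑ j, I j = e := by
      have := mem_expo.1 hI
      rwa [Finsupp.degree_eq_sum] at this
    have h3 : mon (fun j => c * X.x j) I = c ^ e * mon X.x I := by
      unfold mon
      simp only [mul_pow]
      rw [Finset.prod_mul_distrib, Finset.prod_pow_eq_pow_sum, hdeg]
    rw [h3]
    ring
  rw [h2, hz, mul_zero]

include hA in
theorem lin₀_zero : (∑ j, C (C (X.ξ₀ j : L)) * X.B A j - derivative A).evalEval X.y₁ X.y = 0 := by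
  have h : ∀ P : L[X][X], P.evalEval X.y₁ X.y = evalEvalRingHom X.y₁ X.y P := fun P => rfl
  have hC : ∀ c : L, evalEvalRingHom X.y₁ X.y (C (C c)) = c := fun c => by
    rw [← h]; simp
  rw [h, map_sub, map_sum]
  simp only [map_mul, hC]
  have h1 : ∀ j, evalEvalRingHom X.y₁ X.y (X.B A j) =
      evalEvalRingHom X.y₁ X.y (derivative A) * X.x j := fun j => by
    rw [← h, ← h, X.B_eval hA j]
  simp only [h1]
  have h2 : ∑ j, (X.ξ₀ j : L) * (evalEvalRingHom X.y₁ X.y (derivative A) * X.x j) =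
      evalEvalRingHom X.y₁ X.y (derivative A) * ∑ j, (X.ξ₀ j : L) * X.x j := by
    rw [Finset.mul_sum]
    exact Finset.sum_congr rfl fun j _ => by ring
  rw [h2, X.h0, mul_one, sub_self]

include hA in
theorem lin₁_zero :
    (∑ j, C (C (X.ξ₁ j : L)) * X.B A j - C Polynomial.X * derivative A).evalEval X.y₁ X.y = 0 := by
  have h : ∀ P : L[X][X], P.evalEval X.y₁ X.y = evalEvalRingHom X.y₁ X.y P := fun P => rfl
  have hC : ∀ c : L, evalEvalRingHom X.y₁ X.y (C (C c)) = c := fun c => by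
    rw [← h]; simp
  have hX : evalEvalRingHom X.y₁ X.y (C Polynomial.X) = X.y₁ := by
    rw [← h, evalEval_C, eval_X]
  rw [h, map_sub, map_sum]
  simp only [map_mul, hC, hX]
  have h1 : ∀ j, evalEvalRingHom X.y₁ X.y (X.B A j) =
      evalEvalRingHom X.y₁ X.y (derivative A) * X.x j := fun j => by
    rw [← h, ← h, X.B_eval hA j]
  have h1' : ∑ j, (X.ξ₁ j : L) * evalEvalRingHom X.y₁ X.y (X.B A j) =
      ∑ j, (X.ξ₁ j : L) * (evalEvalRingHom X.y₁ X.y (derivative A) * X.x j) :=
    Finset.sum_congr rfl fun j _ => by rw [h1]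
  rw [h1']
  have h2 : ∑ j, (X.ξ₁ j : L) * (evalEvalRingHom X.y₁ X.y (derivative A) * X.x j) =
      evalEvalRingHom X.y₁ X.y (derivative A) * ∑ j, (X.ξ₁ j : L) * X.x j := by
    rw [Finset.mul_sum]
    exact Finset.sum_congr rfl fun j _ => by ring
  have h3 : ∑ j, (X.ξ₁ j : L) * X.x j = X.y₁ := rfl
  rw [h2, h3]
  ring

end

end Pool.Agent.Lib.MP_44a246_ntG
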