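import Mathlib
import Pool.Agent.Lib.MP_44a246_ntG.G16
import Pool.Agent.Lib.MP_44a246_ntG.G11

/-!
Step C: heights.
-/

namespace Pool.Agent.Lib.MP_44a246_ntG

open Pool.Agent.Lib.MP_44a246_nt
open Pool.Agent.Lib.MP_44a246_ntL
open Pool.Agent.Lib.MP_44a246_ntS
open Pool.Agent.Lib.MP_44a246_ntX
open Pool.Agent.Lib.MP_e52354_nt
open WithZero Module Polynomial

variable {κ L : Type*} [Field κ] [IsAlgClosed κ] [CharZero κ] [Field L] [CharZero L]
  [Algebra κ L] {n d : ℕ} (X : DatG κ (L := L) n d) {b : ℕ} {A : L[X][X]} (hA : CrvG X b A)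

private theorem natCast_support {f : Place κ L → ℕ} (hf : (Function.support f).Finite) :
    (Function.support fun w => (f w : ℤ)).Finite := by
  refine hf.subset fun w hw h0 => hw ?_
  simp only
  rw [h0, Nat.cast_zero]

private theorem const_mul_support {f : Place κ L → ℤ} (hf : (Function.support f).Finite) (c : ℤ) :
    (Function.support fun w => c * f w).Finite := by
  refine hf.subset fun w hw h0 => hw ?_
  simp only
  rw [h0, mul_zero]

private theorem exp_mul_pow (a : ℤ) (m : ℕ) : (exp a : ℤᵐ⁰) ^ m = exp ((m : ℤ) * a) := by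
  rw [← exp_nsmul, nsmul_eq_mul]

include hA in
private theorem B_le_exp (j : Fin (n + 1)) (w : Place κ L) :
    gg w.1 (X.B A j) ≤ exp (2 * log (gg w.1 A) + (X.δ w : ℤ)) := by
  have h1 : gg w.1 A ≠ 0 := by
    rw [Ne, gg_eq_zero]
    exact hA.irr.ne_zero
  have h2 := X.B_le hA j w
  rw [← exp_log h1, ← exp_nsmul, ← exp_add, nsmul_eq_mul, Nat.cast_ofNat] at h2
  exact h2

include hA in
/-- the heights of these polynomials -/
theorem gh_FB (h : IsFF κ L) {τ : Place κ L → ℕ} (hτ : (Function.support τ).Finite)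
    {e : ℕ} {a : (Fin (n + 1) →₀ ℕ) → L}
    (ha : ∀ I ∈ expo (Fin (n + 1)) e, ∀ w : Place κ L, w.1 (a I) ≤ exp (τ w : ℤ))
    (h0 : FB e a (X.B A) ≠ 0) :
    gh κ (FB e a (X.B A)) ≤ ∑ᶠ w, (τ w : ℤ) + e * (2 * gh κ A + X.Δ) := by
  -- `FB_le` with `τ = exp (τ w)`, `β = gg w A ^ 2 * exp (δ w)` (`B_le`), `finsum_mono`
  have hA0 : A ≠ 0 := hA.irr.ne_zero
  have s1 := natCast_support hτ
  have s2 := natCast_support X.hδ
  have s3 := gg_support h hA0
  have s4 := const_mul_support s3 2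
  have s5 : (Function.support fun w : Place κ L => 2 * log (gg w.1 A) + (X.δ w : ℤ)).Finite :=
    (s4.union s2).subset (Function.support_add _ _)
  have s6 := const_mul_support s5 (e : ℤ)
  have hsum : ∑ᶠ w : Place κ L, ((τ w : ℤ) + (e : ℤ) * (2 * log (gg w.1 A) + (X.δ w : ℤ))) =
      ∑ᶠ w, (τ w : ℤ) + e * (2 * gh κ A + X.Δ) := by
    rw [finsum_add_distrib s1 s6, ← mul_finsum, finsum_add_distrib s4 s2, ← mul_finsum]
    rfl
  rw [← hsum]
  refine finsum_mono (gg_support h h0) ((s1.union s6).subset (Function.support_add _ _)) fun w => ?_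
  have h1 : gg w.1 (FB e a (X.B A)) ≠ 0 := by
    rw [Ne, gg_eq_zero]
    exact h0
  rw [log_le_iff_le_exp h1]
  refine (FB_le w.1 (fun I hI => ha I hI w) (fun j => B_le_exp X hA j w)).trans_eq ?_
  rw [exp_mul_pow, ← exp_add]

include hA in
theorem gh_lin (h : IsFF κ L) {P : L[X][X]} (hP0 : P ≠ 0)
    (hP : P = ∑ j, C (C (X.ξ₀ j : L)) * X.B A j - derivative A ∨
      P = ∑ j, C (C (X.ξ₁ j : L)) * X.B A j - C Polynomial.X * derivative A) :
    gh κ P ≤ 2 * gh κ A + X.Δ := by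
  -- natural numbers and the inner variable have absolute value at most `1`; `B_le`,
  -- `gg_derivative_le`, `one_le_gg`
  have hA0 : A ≠ 0 := hA.irr.ne_zero
  have s2 := natCast_support X.hδ
  have s3 := gg_support h hA0
  have s4 := const_mul_support s3 2
  have s5 : (Function.support fun w : Place κ L => 2 * log (gg w.1 A) + (X.δ w : ℤ)).Finite :=
    (s4.union s2).subset (Function.support_add _ _)
  have hsum : ∑ᶠ w : Place κ L, (2 * log (gg w.1 A) + (X.δ w : ℤ)) = 2 * gh κ A + X.Δ := by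
    rw [finsum_add_distrib s4 s2, ← mul_finsum]
    rfl
  rw [← hsum]
  refine finsum_mono (gg_support h hP0) s5 fun w => ?_
  have h1 : gg w.1 P ≠ 0 := by
    rw [Ne, gg_eq_zero]
    exact hP0
  rw [log_le_iff_le_exp h1]
  have hgA : gg w.1 A ≠ 0 := by
    rw [Ne, gg_eq_zero]
    exact hA0
  have h2 : gg w.1 A ≤ exp (2 * log (gg w.1 A) + (X.δ w : ℤ)) := by
    have h3 : 0 ≤ log (gg w.1 A) := by
      rw [le_log_iff_exp_le hgA, exp_zero]
      exact one_le_gg hA.one w
    have h4 : gg w.1 A = exp (log (gg w.1 A)) := (exp_log hgA).symm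
    conv_lhs => rw [h4]
    rw [exp_le_exp]
    have : (0 : ℤ) ≤ (X.δ w : ℤ) := Int.natCast_nonneg _
    linarith
  have h3 : gg w.1 (derivative A) ≤ exp (2 * log (gg w.1 A) + (X.δ w : ℤ)) :=
    (gg_derivative_le w.1 A).trans h2
  have h4 : ∀ ξ : Fin (n + 1) → ℕ, gg w.1 (∑ j, C (C (ξ j : L)) * X.B A j) ≤
      exp (2 * log (gg w.1 A) + (X.δ w : ℤ)) := by
    intro ξ
    refine Valuation.map_sum_le _ fun j _ => ?_
    rw [map_mul, gg_CC]
    calc w.1 ((ξ j : ℕ) : L) * gg w.1 (X.B A j)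
        ≤ 1 * exp (2 * log (gg w.1 A) + (X.δ w : ℤ)) := by
          refine mul_le_mul' ?_ (B_le_exp X hA j w)
          have := int_le_one w (ξ j : ℤ)
          rwa [Int.cast_natCast] at this
      _ = _ := one_mul _
  rcases hP with rfl | rfl
  · exact (Valuation.map_sub _ _ _).trans (max_le (h4 _) h3)
  · refine (Valuation.map_sub _ _ _).trans (max_le (h4 _) ?_)
    rw [map_mul, gg_CX, one_mul]
    exact h3

end Pool.Agent.Lib.MP_44a246_ntG
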