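import Mathlib
import Pool.Agent.Lib.MP_44a246_ntG.G17
import Pool.Agent.Lib.MP_44a246_ntG.G0

/-!
Step C: the parametrised curve is contained in the variety.
-/

namespace Pool.Agent.Lib.MP_44a246_ntG

open Pool.Agent.Lib.MP_44a246_nt
open Pool.Agent.Lib.MP_44a246_ntL
open Pool.Agent.Lib.MP_44a246_ntS
open Pool.Agent.Lib.MP_44a246_ntX
open Pool.Agent.Lib.MP_e52354_nt
open WithZero Module Polynomial

variable {κ L : Type*} [Field κ] [IsAlgClosed κ] [CharZero κ] [Field L] [CharZero L]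
  [Algebra κ L] {n d : ℕ} (X : DatG κ (L := L) n d) {b : ℕ} {A : L[X][X]} (hA : CrvG X b A)

include hA in
private theorem lin₂_zero :
    (∑ j, C (C (algebraMap κ L (X.z j))) * X.B A j -
      Polynomial.X * derivative A).evalEval X.y₁ X.y = 0 := by
  have h1 : ∀ j, (C (C (algebraMap κ L (X.z j))) * X.B A j).evalEval X.y₁ X.y =
      (derivative A).evalEval X.y₁ X.y * (algebraMap κ L (X.z j) * X.x j) := by
    intro j
    rw [evalEval_mul, evalEval_CC, ← X.B_eval hA j]
    ring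
  rw [evalEval_sub, evalEval_mul, evalEval_X, ← coe_evalEvalRingHom, map_sum]
  simp only [coe_evalEvalRingHom]
  rw [Finset.sum_congr rfl fun j _ => h1 j, ← Finset.mul_sum]
  have h2 : ∑ j, algebraMap κ L (X.z j) * X.x j = X.y := rfl
  rw [h2]
  ring

include hA in
private theorem gh_lin₂ (h : IsFF κ L)
    (hP0 : ∑ j, C (C (algebraMap κ L (X.z j))) * X.B A j - Polynomial.X * derivative A ≠ 0) :
    gh κ (∑ j, C (C (algebraMap κ L (X.z j))) * X.B A j - Polynomial.X * derivative A) ≤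
      2 * gh κ A + X.Δ := by
  have hA0 : A ≠ 0 := hA.irr.ne_zero
  have s2 : (Function.support fun w : Place κ L => (X.δ w : ℤ)).Finite := by
    refine X.hδ.subset fun w hw h0 => hw ?_
    simp only
    rw [h0, Nat.cast_zero]
  have s3 := gg_support h hA0
  have s4 : (Function.support fun w : Place κ L => 2 * log (gg w.1 A)).Finite := by
    refine s3.subset fun w hw h0 => hw ?_
    have h0' : log (gg w.1 A) = 0 := h0
    simp only
    rw [h0', mul_zero]
  have s5 : (Function.support fun w : Place κ L => 2 * log (gg w.1 A) + (X.δ w : ℤ)).Finite :=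
    (s4.union s2).subset (Function.support_add _ _)
  have hsum : ∑ᶠ w : Place κ L, (2 * log (gg w.1 A) + (X.δ w : ℤ)) = 2 * gh κ A + X.Δ := by
    rw [finsum_add_distrib s4 s2, ← mul_finsum]
    rfl
  rw [← hsum]
  refine finsum_mono (gg_support h hP0) s5 fun w => ?_
  have h1 : gg w.1 (∑ j, C (C (algebraMap κ L (X.z j))) * X.B A j -
      Polynomial.X * derivative A) ≠ 0 := by
    rw [Ne, gg_eq_zero]
    exact hP0
  rw [log_le_iff_le_exp h1]
  have hgA : gg w.1 A ≠ 0 := by
    rw [Ne, gg_eq_zero]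
    exact hA0
  have hB : ∀ j, gg w.1 (X.B A j) ≤ exp (2 * log (gg w.1 A) + (X.δ w : ℤ)) := by
    intro j
    have h2 := X.B_le hA j w
    rw [← exp_log hgA, ← exp_nsmul, ← exp_add, nsmul_eq_mul, Nat.cast_ofNat] at h2
    exact h2
  have h2 : gg w.1 A ≤ exp (2 * log (gg w.1 A) + (X.δ w : ℤ)) := by
    have h3 : 0 ≤ log (gg w.1 A) := by
      rw [le_log_iff_exp_le hgA, exp_zero]
      exact one_le_gg hA.one w
    have h4 : gg w.1 A = exp (log (gg w.1 A)) := (exp_log hgA).symm
    conv_lhs => rw [h4]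
    rw [exp_le_exp]
    have : (0 : ℤ) ≤ (X.δ w : ℤ) := Int.natCast_nonneg _
    linarith
  have h3 : gg w.1 (derivative A) ≤ exp (2 * log (gg w.1 A) + (X.δ w : ℤ)) :=
    (gg_derivative_le w.1 A).trans h2
  refine (Valuation.map_sub _ _ _).trans (max_le ?_ ?_)
  · refine Valuation.map_sum_le _ fun j _ => ?_
    rw [map_mul, gg_CC]
    calc w.1 (algebraMap κ L (X.z j)) * gg w.1 (X.B A j)
        ≤ 1 * exp (2 * log (gg w.1 A) + (X.δ w : ℤ)) := by
          refine mul_le_mul' ?_ (hB j)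
          by_cases hz : X.z j = 0
          · rw [hz, map_zero, map_zero]
            exact zero_le
          · exact (w.2.2 _ hz).le
      _ = _ := one_mul _
  · have h4 : gg w.1 (Polynomial.X : L[X][X]) = 1 := gn_X (gv w.1)
    rw [map_mul, h4, one_mul]
    exact h3

include hA in
theorem dvd_of_small (h : IsFF κ L) {P : L[X][X]} {m : ℕ} (hPd : P.natDegree ≤ m * b) {g : ℤ}
    (hPg : P ≠ 0 → gh κ P ≤ g) (hP0 : P.evalEval X.y₁ X.y = 0)
    (hg : (m * b : ℤ) * gh κ A + b * g < height κ X.x) : A ∣ P := by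
  by_cases hP : P = 0
  · rw [hP]
    exact dvd_zero A
  refine bez h hA.irr hA.deg hA.zero hP0 (lt_of_le_of_lt ?_ (hg.trans_eq X.height_y₁.symm))
  have h1 : 0 ≤ gh κ A := gh_nonneg h hA.irr.ne_zero
  have h2 : 0 ≤ gh κ P := gh_nonneg h hP
  have h3 : (P.natDegree : ℤ) ≤ (m * b : ℤ) := by exact_mod_cast hPd
  have h4 : (A.natDegree : ℤ) ≤ (b : ℤ) := by exact_mod_cast hA.box.1
  have h5 : (A.natDegree : ℤ) * gh κ P ≤ b * g :=
    (mul_le_mul_of_nonneg_right h4 h2).trans
      (mul_le_mul_of_nonneg_left (hPg hP) (Int.natCast_nonneg b))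
  have h6 := mul_le_mul_of_nonneg_right h3 h1
  linarith

private theorem natDegree_sum_le_box {c : Fin (n + 1) → L} {B : Fin (n + 1) → L[X][X]}
    (hB : ∀ j, (B j).natDegree ≤ b) : (∑ j, C (C (c j)) * B j).natDegree ≤ b := by
  refine natDegree_sum_le_of_forall_le _ _ fun j _ => ?_
  exact (natDegree_C_mul_le _ _).trans (hB j)

include hA in
/-- **Step C.** -/
theorem stepC (h : IsFF κ L) {τ : Place κ L → ℕ} (hτ : (Function.support τ).Finite)
    {ι : Type*} {e : ι → ℕ} {a : ι → (Fin (n + 1) →₀ ℕ) → L}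
    (ha : ∀ i, ∀ I ∈ expo (Fin (n + 1)) (e i), ∀ w : Place κ L, w.1 (a i I) ≤ exp (τ w : ℤ))
    (hz : ∀ i, Fval (e i) (a i) X.x = 0)
    (hh : ∀ i, (e i * b : ℤ) * gh κ A + b * (∑ᶠ w, (τ w : ℤ) + e i * (2 * gh κ A + X.Δ)) <
      height κ X.x)
    (hlin : (b : ℤ) * gh κ A + b * (2 * gh κ A + X.Δ) < height κ X.x) :
    CertV e a b X.x := by
  have hAd : (derivative A).natDegree ≤ b :=
    ((natDegree_derivative_le A).trans (Nat.sub_le _ _)).trans hA.box.1
  have hB : ∀ j, (X.B A j).natDegree ≤ b := fun j => (X.B_box hA j).1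
  have hlin' : ((1 : ℕ) * b : ℤ) * gh κ A + b * (2 * gh κ A + X.Δ) < height κ X.x := by
    push_cast
    rwa [one_mul]
  refine ⟨A, X.B A, fun j => (X.ξ₀ j : L), fun j => (X.ξ₁ j : L),
    fun j => algebraMap κ L (X.z j), 1, X.y₁, X.y, hA.box, X.B_box hA, one_ne_zero, ?_, ?_, ?_,
    hA.zero, hA.der, ?_, ?_, ?_, ?_, ?_⟩
  · simpa only [one_mul] using X.h0
  · simp only [one_mul]
    rfl
  · simp only [one_mul]
    rfl
  · intro j
    rw [one_mul]
    exact X.B_eval hA j
  · exact fun i => dvd_of_small X hA h (FB_natDegree hB) (gh_FB X hA h hτ (ha i))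
      (FB_zero X hA (hz i)) (hh i)
  · refine dvd_of_small X hA h (m := 1) ?_ (fun h0 => gh_lin X hA h h0 (Or.inl rfl))
      (lin₀_zero X hA) hlin'
    rw [one_mul]
    exact (natDegree_sub_le_of_le (natDegree_sum_le_box hB) hAd).trans (by rw [max_self])
  · refine dvd_of_small X hA h (m := 1) ?_ (fun h0 => gh_lin X hA h h0 (Or.inr rfl))
      (lin₁_zero X hA) hlin'
    rw [one_mul]
    exact (natDegree_sub_le_of_le (natDegree_sum_le_box hB)
      ((natDegree_C_mul_le _ _).trans hAd)).trans (by rw [max_self])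
  · refine dvd_of_small X hA h (m := 1) ?_ (gh_lin₂ X hA h) (lin₂_zero X hA) hlin'
    rw [one_mul]
    refine (natDegree_sub_le_of_le (natDegree_sum_le_box hB) ?_).trans (by rw [max_self])
    refine natDegree_mul_le.trans ?_
    rw [natDegree_X]
    have h1 := natDegree_derivative_le A
    have h2 := hA.box.1
    have h3 := Nat.pos_of_ne_zero hA.deg
    omega

end Pool.Agent.Lib.MP_44a246_ntG
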