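import Mathlib
import Pool.Agent.Lib.MP_44a246_ntW.W26

/-!
Numerical lemmas for the height theorem.
-/

namespace Pool.Agent.Lib.MP_44a246_ntG

open Pool.Agent.Lib.MP_44a246_ntW

theorem numG2 {n d T s₀ : ℕ} (hT : 1 ≤ T) (hT2 : 2000 * T ^ 2 ≤ d)
    (hN : 2 * n + 8500 * T ^ 2 + T * (n + 2) ≤ T * d) (hr : 2500 * (T * s₀) ≤ d)
    {H α : ℤ} (hH : 0 < H) (hα0 : 0 ≤ α) (hα : 3 * (α * (850 * T : ℕ)) ≤ 8 * H) :
    16 * ((s₀ : ℤ) * H + 4 * ((NN n T : ℕ) : ℤ) * α) < d * H ∧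
      28 * ((NN n T : ℕ) : ℤ) * ((d / 8 : ℕ) : ℤ) * α +
        16 * ((2 * T : ℕ) : ℤ) * ((s₀ : ℤ) * H + 4 * ((NN n T : ℕ) : ℤ) * α) <
          7 * ((d / 8 : ℕ) : ℤ) ^ 2 * H ∧
      36 * ((2 * T : ℕ) : ℤ) * α ≤ H := by
  obtain ⟨h1, h2, -⟩ := numW1 hT hT2 hN
  have h3 : d ≤ 8 * (d / 8) + 7 := by omega
  have h4 : 1062 * T ≤ d / 8 := by omega
  have hT1 : (1 : ℤ) ≤ T := by exact_mod_cast hT
  have h1' : 8500 * (T : ℤ) + 2 ≤ d := by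
    have : 8500 * T + 2 ≤ d := by omega
    exact_mod_cast this
  have h2' : 10 * ((NN n T : ℕ) : ℤ) ≤ 41 * (T * d) := by exact_mod_cast h2
  have hr' : 2500 * (s₀ : ℤ) ≤ d := by
    have h5 : s₀ ≤ T * s₀ := Nat.le_mul_of_pos_left _ hT
    have h6 : 2500 * s₀ ≤ d := by omega
    exact_mod_cast h6
  generalize hs : ((d / 8 : ℕ) : ℤ) = s
  have h3' : (d : ℤ) ≤ 8 * s + 7 := by rw [← hs]; exact_mod_cast h3
  have h4' : 1062 * (T : ℤ) ≤ s := by rw [← hs]; exact_mod_cast h4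
  have hM0 : (0 : ℤ) ≤ ((NN n T : ℕ) : ℤ) := by positivity
  have hρ0 : (0 : ℤ) ≤ (s₀ : ℤ) := by positivity
  generalize (s₀ : ℤ) = ρ at hr' hρ0 ⊢
  generalize ((NN n T : ℕ) : ℤ) = M at h2' hM0 ⊢
  push_cast at hα ⊢
  generalize (d : ℤ) = D at h1' h2' h3' hr' ⊢
  generalize (T : ℤ) = U at hT1 h1' h2' h4' hα ⊢
  have hD0 : 8502 ≤ D := by linarith
  have hs0 : 1062 ≤ s := by linarith
  -- `K = U α`, `2550 K ≤ 8 H`
  obtain ⟨K, hK⟩ : ∃ K, K = U * α := ⟨_, rfl⟩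
  have hK0 : 0 ≤ K := by rw [hK]; positivity
  have hK1 : 2550 * K ≤ 8 * H := by rw [hK]; linarith
  -- `M α`
  obtain ⟨J, hJ⟩ : ∃ J, J = M * α := ⟨_, rfl⟩
  have hJ0 : 0 ≤ J := by rw [hJ]; positivity
  have hJ1 : 10 * J ≤ 41 * (D * K) := by
    have := mul_le_mul_of_nonneg_right h2' hα0
    rw [hJ, hK]
    nlinarith
  have hDK : D * (2550 * K) ≤ D * (8 * H) := mul_le_mul_of_nonneg_left hK1 (by linarith)
  have hJ2 : 25500 * J ≤ 328 * (D * H) := by nlinarith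
  have hDH : 0 < D * H := mul_pos (by linarith) hH
  have hρH : 2500 * (ρ * H) ≤ D * H := by
    have := mul_le_mul_of_nonneg_right hr' hH.le
    linarith
  have hη : 16 * (ρ * H + 4 * M * α) < D * H := by
    have e : 16 * (ρ * H + 4 * M * α) = 16 * (ρ * H) + 64 * J := by rw [hJ]; ring
    rw [e]
    linarith
  refine ⟨hη, ?_, ?_⟩
  · have e : 28 * M * s * α + 16 * (2 * U) * (ρ * H + 4 * M * α) =
        28 * (s * J) + 2 * (U * (16 * (ρ * H + 4 * M * α))) := by rw [hJ]; ring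
    rw [e]
    have e1 : U * (16 * (ρ * H + 4 * M * α)) ≤ U * (D * H) :=
      mul_le_mul_of_nonneg_left hη.le (by linarith)
    have e2 : s * (25500 * J) ≤ s * (328 * (D * H)) := mul_le_mul_of_nonneg_left hJ2 (by linarith)
    have e3 : 1062 * (U * (D * H)) ≤ s * (D * H) := by
      have : 0 ≤ D * H := hDH.le
      have := mul_le_mul_of_nonneg_right h4' this
      linarith
    have e4 : s * (D * H) ≤ s * ((8 * s + 7) * H) :=
      mul_le_mul_of_nonneg_left (mul_le_mul_of_nonneg_right h3' hH.le) (by linarith)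
    have e5 : s * ((8 * s + 7) * H) = 8 * (s ^ 2 * H) + 7 * (s * H) := by ring
    have e6 : 1062 * (s * H) ≤ s ^ 2 * H := by
      have : 0 ≤ s * H := mul_nonneg (by linarith) hH.le
      have := mul_le_mul_of_nonneg_right hs0 this
      nlinarith
    have e7 : 0 < s ^ 2 * H := by positivity
    have e8 : 7 * s ^ 2 * H = 7 * (s ^ 2 * H) := by ring
    rw [e8]
    have e9 : s * J * 25500 ≤ 328 * (s * (D * H)) := by nlinarith
    nlinarith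
  · have e : 36 * (2 * U) * α = 72 * K := by rw [hK]; ring
    rw [e]
    linarith

/-- the hypotheses of step C -/
theorem numG3 {n d T e s₀ : ℕ} (hs₀ : 3 ≤ s₀) (hT : 1 ≤ T) (hT2 : 2000 * T ^ 2 ≤ d)
    (hN : 2 * n + 8500 * T ^ 2 + T * (n + 2) ≤ T * d) (he : 2000 * (s₀ * (T * e)) ≤ d ^ 2)
    {H α Δ Θ : ℤ} (hH : 0 < H) (hΔ : 0 ≤ Δ) (hΘ : 0 ≤ Θ) (hα0 : 0 ≤ α)
    (hα : 5 * (α * ((d / 8 : ℕ) : ℤ) ^ 2) ≤ 16 * ((s₀ : ℤ) * H))
    (hbig : 27 * (d : ℤ) ^ 2 * (Δ + Θ) < H) :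
    (e * ((2 * T : ℕ) : ℤ)) * α + ((2 * T : ℕ) : ℤ) * (Θ + e * (2 * α + Δ)) < H := by
  obtain ⟨h1, -, -⟩ := numW1 hT hT2 hN
  have h3 : d ≤ 8 * (d / 8) + 7 := by omega
  have h4 : 1062 * T ≤ d / 8 := by omega
  have hT1 : (1 : ℤ) ≤ T := by exact_mod_cast hT
  have h1' : 8500 * (T : ℤ) + 2 ≤ d := by
    have : 8500 * T + 2 ≤ d := by omega
    exact_mod_cast this
  generalize hs : ((d / 8 : ℕ) : ℤ) = s at hα
  have h3' : (d : ℤ) ≤ 8 * s + 7 := by rw [← hs]; exact_mod_cast h3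
  have h4' : 1062 * (T : ℤ) ≤ s := by rw [← hs]; exact_mod_cast h4
  have he' : 2000 * ((s₀ : ℤ) * ((T : ℤ) * e)) ≤ (d : ℤ) ^ 2 := by exact_mod_cast he
  have he0 : (0 : ℤ) ≤ (T : ℤ) * e := by positivity
  have hρ : (3 : ℤ) ≤ (s₀ : ℤ) := by exact_mod_cast hs₀
  generalize (s₀ : ℤ) = ρ at he' hρ hα
  push_cast
  obtain ⟨W, hW⟩ : ∃ W : ℤ, W = T * e := ⟨_, rfl⟩
  rw [← hW] at he' he0
  generalize (d : ℤ) = D at h1' h3' hbig he'
  have hD0 : 8502 ≤ D := by linarith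
  have hs0 : 1062 ≤ s := by linarith
  have hs2 : 0 < s ^ 2 := by positivity
  -- `D ^ 2 ≤ 66 s ^ 2`
  have hD2 : D ^ 2 ≤ 66 * s ^ 2 := by nlinarith
  -- `9 W α ≤ H`
  have h5 : 9 * (W * α) ≤ H := by
    have h6 : W * (5 * (α * s ^ 2)) ≤ W * (16 * (ρ * H)) := mul_le_mul_of_nonneg_left hα he0
    have h7 : 2000 * (ρ * W) * H ≤ 66 * s ^ 2 * H :=
      mul_le_mul_of_nonneg_right (he'.trans hD2) hH.le
    have h8 : s ^ 2 * (9 * (W * α)) ≤ s ^ 2 * H := by nlinarith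
    exact le_of_mul_le_mul_left h8 hs2
  have hW0 : 6000 * W ≤ D ^ 2 := by
    have := mul_le_mul_of_nonneg_right hρ he0
    linarith
  have hTD : (T : ℤ) ≤ D := by linarith
  have h10 : (T : ℤ) * Θ ≤ D ^ 2 * Θ := mul_le_mul_of_nonneg_right (by nlinarith) hΘ
  have h11 : 6000 * (W * Δ) ≤ D ^ 2 * Δ := by
    have := mul_le_mul_of_nonneg_right hW0 hΔ
    linarith
  have h12 : (e : ℤ) * (2 * T) * α + 2 * T * (Θ + e * (2 * α + Δ)) =
      6 * (W * α) + 2 * (T * Θ) + 2 * (W * Δ) := by rw [hW]; ring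
  rw [h12]
  have h13 : 0 ≤ D ^ 2 * Θ := by positivity
  have h14 : 0 ≤ D ^ 2 * Δ := by positivity
  have h15 : 0 ≤ W * Δ := mul_nonneg he0 hΔ
  nlinarith

end Pool.Agent.Lib.MP_44a246_ntG
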