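import Mathlib
import Pool.Agent.Lib.MP_44a246_ntG.G20

/-!
The height theorem for hypersurface sections of arbitrary varieties.
-/

namespace Pool.Agent.Lib.MP_44a246_ntG

open Pool.Agent.Lib.MP_44a246_nt
open Pool.Agent.Lib.MP_44a246_ntL
open Pool.Agent.Lib.MP_44a246_ntS
open Pool.Agent.Lib.MP_44a246_ntX
open Pool.Agent.Lib.MP_44a246_ntW
open Pool.Agent.Lib.MP_e52354_nt
open WithZero Module Polynomial

/-- **Main height theorem** for a zero of the form: `r` is a bound for the rank of the rows of the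
coordinates (`r` is the dimension of a variety, over the constants of the derivations, which
contains the point), and the forms of degree `e i` with the coefficients `a i` vanish at the
point. -/
theorem height_V' {κ L : Type*} [Field κ] [IsAlgClosed κ] [CharZero κ] [Field L] [CharZero L]
    [Algebra κ L] (h : IsFF κ L) {n r d T q : ℕ} (hT : 1 ≤ T) (hT2 : 2000 * T ^ 2 ≤ d)
    (hq : 2500 * (T * (q + 3)) ≤ d)
    (hN : 2 * r + 8500 * T ^ 2 + T * (r + 2 + q) ≤ T * d) (X : DatG κ (L := L) n d)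
    (hv : X.v = 0) (hr : finrank L X.Ux ≤ r) (hR : X.R ≤ q * height κ X.x)
    {τ : Place κ L → ℕ} (hτ : (Function.support τ).Finite)
    {ι : Type*} {e : ι → ℕ} {a : ι → (Fin (n + 1) →₀ ℕ) → L}
    (he : ∀ i, 2000 * ((q + 3) * (T * e i)) ≤ d ^ 2)
    (ha : ∀ i, ∀ I ∈ expo (Fin (n + 1)) (e i), ∀ w : Place κ L, w.1 (a i I) ≤ exp (τ w : ℤ))
    (hz : ∀ i, Fval (e i) (a i) X.x = 0) :
    height κ X.x ≤ 27 * d ^ 2 * (X.Δ + ∑ᶠ w, (τ w : ℤ)) ∨ CertV e a (2 * T) X.x := by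
  have hΔ := X.Δ_nonneg
  have hΘ : 0 ≤ ∑ᶠ w, (τ w : ℤ) := finsum_nonneg fun w => Int.natCast_nonneg _
  rcases le_or_gt (height κ X.x) (27 * d ^ 2 * (X.Δ + ∑ᶠ w, (τ w : ℤ))) with hle | hbig
  · exact Or.inl hle
  right
  have hN' : 2 * r + 8500 * T ^ 2 + T * (r + 2) ≤ T * d := by
    have : T * (r + 2) ≤ T * (r + 2 + q) := Nat.mul_le_mul_left _ (by omega)
    omega
  have hpos : 0 < height κ X.x :=
    lt_of_le_of_lt (mul_nonneg (by positivity) (add_nonneg hΔ hΘ)) hbig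
  have hbig' : 27 * (d : ℤ) ^ 2 * X.Δ < height κ X.x := by
    have : 0 ≤ 27 * (d : ℤ) ^ 2 * ∑ᶠ w, (τ w : ℤ) := mul_nonneg (by positivity) hΘ
    linarith
  have hU : X.U = X.Ux := X.U_of_zero hv
  obtain ⟨A, hCA, -, hα⟩ := exists_small_curve h hT hT2 hq hN X (E := X.Δ)
    (by rw [hU]; exact hr) (by
      rw [hU]
      have := X.ht_Ux h hr
      linarith)
    (fun {b A} hA {J N} hVN => by
      rw [hv, X.row_zero, Submodule.span_zero_singleton, sup_bot_eq]
      have h1 := ht_VJ_le X hA h hVN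
      push_cast
      linarith) le_rfl hbig'
  have hα0 : 0 ≤ gh κ A := gh_nonneg h hCA.irr.ne_zero
  refine stepC X hCA h hτ ha hz (fun i => ?_) ?_
  · exact numG3 (by omega) hT hT2 hN' (he i) hpos hΔ hΘ hα0 hα hbig
  · have hd1 : 1 ≤ d := by
      have h1 : 1 ≤ T ^ 2 := Nat.one_le_pow _ _ hT
      omega
    have h1 := numG3 (e := 1) (s₀ := q + 3) (by omega) hT hT2 hN' (by
      rw [mul_one]
      have h2 : 2000 * ((q + 3) * T) ≤ d := by
        rw [mul_comm (q + 3) T]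
        omega
      calc 2000 * ((q + 3) * T) ≤ d := h2
        _ = d * 1 := (mul_one d).symm
        _ ≤ d * d := Nat.mul_le_mul_left _ hd1
        _ = d ^ 2 := (sq d).symm) hpos hΔ le_rfl hα0 hα
      (by rw [add_zero]; exact hbig')
    push_cast at h1 ⊢
    linarith

/-- **Main height theorem** for a zero of the form, with the alternative of large ramification. -/
theorem height_V {κ L : Type*} [Field κ] [IsAlgClosed κ] [CharZero κ] [Field L] [CharZero L]
    [Algebra κ L] (h : IsFF κ L) {n r d T q : ℕ} (hT : 1 ≤ T) (hT2 : 2000 * T ^ 2 ≤ d)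
    (hq : 2500 * (T * (q + 3)) ≤ d)
    (hN : 2 * r + 8500 * T ^ 2 + T * (r + 2 + q) ≤ T * d) (X : DatG κ (L := L) n d)
    (hv : X.v = 0)
    (hr : finrank L X.Ux ≤ r) {τ : Place κ L → ℕ} (hτ : (Function.support τ).Finite)
    {ι : Type*} {e : ι → ℕ} {a : ι → (Fin (n + 1) →₀ ℕ) → L}
    (he : ∀ i, 2000 * ((q + 3) * (T * e i)) ≤ d ^ 2)
    (ha : ∀ i, ∀ I ∈ expo (Fin (n + 1)) (e i), ∀ w : Place κ L, w.1 (a i I) ≤ exp (τ w : ℤ))
    (hz : ∀ i, Fval (e i) (a i) X.x = 0) :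
    q * height κ X.x ≤ X.R ∨
    height κ X.x ≤ 27 * d ^ 2 * (X.Δ + ∑ᶠ w, (τ w : ℤ)) ∨ CertV e a (2 * T) X.x := by
  rcases le_or_gt (q * height κ X.x) X.R with hR | hR
  · exact Or.inl hR
  · exact Or.inr (height_V' h hT hT2 hq hN X hv hr hR.le hτ he ha hz)

end Pool.Agent.Lib.MP_44a246_ntG
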