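import Mathlib
import Pool.Agent.Lib.MP_44a246_ntG.G5

/-!
The local bounds for the minors of the rows together with the logarithmic derivative of an element.
-/

namespace Pool.Agent.Lib.MP_44a246_ntG

open Pool.Agent.Lib.MP_44a246_nt
open Pool.Agent.Lib.MP_44a246_ntL
open Pool.Agent.Lib.MP_44a246_ntS
open Pool.Agent.Lib.MP_44a246_ntX
open Pool.Agent.Lib.MP_e52354_nt
open WithZero Module

namespace DatG

section

variable {κ L : Type*} [Field κ] [Field L] [Algebra κ L] {n d : ℕ} (X : DatG κ (L := L) n d)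

theorem row_one : X.row 1 = 0 := by
  have := X.row_natCast 1
  rwa [Nat.cast_one] at this

/-- the logarithmic derivative -/
noncomputable def lrow (u : L) : M3 d → L := u⁻¹ • X.row u

theorem lrow_mul {a b : L} (ha : a ≠ 0) (hb : b ≠ 0) :
    X.lrow (a * b) = X.lrow a + X.lrow b := by
  unfold lrow
  rw [row_mul, smul_add, smul_smul, smul_smul, mul_inv]
  rw [show a⁻¹ * b⁻¹ * a = b⁻¹ by field_simp, show a⁻¹ * b⁻¹ * b = a⁻¹ by field_simp, add_comm]

theorem lrow_inv {a : L} (ha : a ≠ 0) : X.lrow a⁻¹ = - X.lrow a := by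
  have h1 := X.lrow_mul ha (inv_ne_zero ha)
  rw [mul_inv_cancel₀ ha] at h1
  have h2 : X.lrow 1 = 0 := by
    unfold lrow
    rw [X.row_one, smul_zero]
  rw [h2] at h1
  exact (neg_eq_of_add_eq_zero_right h1.symm).symm

theorem lrow_pow {a : L} (ha : a ≠ 0) (k : ℕ) : X.lrow (a ^ k) = (k : L) • X.lrow a := by
  induction k with
  | zero =>
    unfold lrow
    rw [pow_zero, X.row_one, smul_zero, Nat.cast_zero, zero_smul]
  | succ k ih =>
    rw [pow_succ, X.lrow_mul (pow_ne_zero _ ha) ha, ih, Nat.cast_succ, add_smul, one_smul]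

theorem lrow_zpow {a : L} (ha : a ≠ 0) (k : ℤ) : X.lrow (a ^ k) = (k : L) • X.lrow a := by
  cases k with
  | ofNat k =>
    rw [Int.ofNat_eq_natCast, zpow_natCast, X.lrow_pow ha, Int.cast_natCast]
  | negSucc k =>
    rw [zpow_negSucc, X.lrow_inv (pow_ne_zero _ ha), X.lrow_pow ha, Int.cast_negSucc, neg_smul]

/-- the minors of the rows of integral elements, one row being a logarithmic derivative -/
theorem row_minor_log (w : Place κ L) {m : ℕ} (K : Fin m → M3 d) (c : Fin m → L)
    (hc : ∀ j, w.1 (c j) ≤ 1) (i₀ : Fin m) {u : L} (hu : u ≠ 0) {ε : ℕ}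
    (hε : w.1 u = 1 ∨ 1 ≤ ε) :
    w.1 (Matrix.det (Matrix.updateRow (Matrix.of fun i j => X.row (c i) (K j)) i₀
      (fun j => X.lrow u (K j)))) ≤ exp ((m * X.δ w + X.ρ w + ε : ℕ) : ℤ) := by
  classical
  have key : ∀ a : L, w.1 a ≤ 1 →
      w.1 (Matrix.det (Matrix.updateRow (Matrix.of fun i j => X.row (c i) (K j)) i₀
        (fun j => X.row a (K j)))) ≤ exp ((m * X.δ w + X.ρ w : ℕ) : ℤ) := by
    intro a ha
    have h1 : Matrix.updateRow (Matrix.of fun i j => X.row (c i) (K j)) i₀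
        (fun j => X.row a (K j)) =
        Matrix.of fun i j => X.row ((Function.update c i₀ a) i) (K j) := by
      ext i j
      by_cases hi : i = i₀
      · subst hi
        simp
      · rw [Matrix.updateRow_ne hi, Matrix.of_apply, Matrix.of_apply, Function.update_of_ne hi]
    rw [h1]
    refine X.row_minor w K _ fun j => ?_
    by_cases hj : j = i₀
    · subst hj
      simpa using ha
    · rw [Function.update_of_ne hj]
      exact hc j
  have key2 : ∀ (a : L) (t : L), w.1 a ≤ 1 →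
      w.1 (Matrix.det (Matrix.updateRow (Matrix.of fun i j => X.row (c i) (K j)) i₀
        (fun j => t * X.row a (K j)))) ≤ w.1 t * exp ((m * X.δ w + X.ρ w : ℕ) : ℤ) := by
    intro a t ha
    have h1 : (fun j => t * X.row a (K j)) = t • (fun j => X.row a (K j)) := rfl
    rw [h1, Matrix.det_updateRow_smul, map_mul]
    exact mul_le_mul' le_rfl (key a ha)
  have hle : (exp ((m * X.δ w + X.ρ w : ℕ) : ℤ) : ℤᵐ⁰) ≤
      exp ((m * X.δ w + X.ρ w + ε : ℕ) : ℤ) := by
    rw [exp_le_exp]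
    push_cast
    omega
  rcases hε with hε | hε
  · have h1 := key2 u u⁻¹ hε.le
    rw [map_inv₀, hε, inv_one, one_mul] at h1
    exact h1.trans hle
  · obtain ⟨π, hπ0, hπ⟩ := exists_pi w
    have hwu : w.1 u ≠ 0 := (Valuation.ne_zero_iff _).2 hu
    set k : ℤ := - log (w.1 u) with hk
    have hwk : w.1 (π ^ k) = w.1 u := by
      rw [map_zpow₀, hπ, ← exp_zsmul, hk, smul_eq_mul, mul_neg, mul_one, neg_neg, exp_log hwu]
    have hπk : π ^ k ≠ 0 := zpow_ne_zero _ hπ0
    set u' := u * (π ^ k)⁻¹ with hu'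
    have hu'0 : u' ≠ 0 := mul_ne_zero hu (inv_ne_zero hπk)
    have hwu' : w.1 u' = 1 := by
      rw [hu', map_mul, map_inv₀, hwk, mul_inv_cancel₀ hwu]
    have huu : u = u' * π ^ k := by
      rw [hu', mul_assoc, inv_mul_cancel₀ hπk, mul_one]
    have hl : X.lrow u = X.lrow u' + (k : L) • X.lrow π := by
      rw [huu, X.lrow_mul hu'0 hπk, X.lrow_zpow hπ0]
    have hrow : (fun j => X.lrow u (K j)) = (fun j => u'⁻¹ * X.row u' (K j)) +
        (fun j => ((k : L) * π⁻¹) * X.row π (K j)) := by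
      funext j
      rw [hl]
      simp only [lrow, Pi.add_apply, Pi.smul_apply, smul_eq_mul]
      ring
    rw [hrow, Matrix.det_updateRow_add]
    refine (Valuation.map_add _ _ _).trans (max_le ?_ ?_)
    · have h1 := key2 u' u'⁻¹ hwu'.le
      rw [map_inv₀, hwu', inv_one, one_mul] at h1
      exact h1.trans hle
    · refine (key2 π ((k : L) * π⁻¹) (by
        rw [hπ, ← exp_zero, exp_le_exp]
        norm_num)).trans ?_
      rw [map_mul, map_inv₀, hπ, ← exp_neg, neg_neg]
      calc w.1 (k : L) * exp 1 * exp ((m * X.δ w + X.ρ w : ℕ) : ℤ)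
          ≤ 1 * exp 1 * exp ((m * X.δ w + X.ρ w : ℕ) : ℤ) :=
            mul_le_mul' (mul_le_mul' (int_le_one w k) le_rfl) le_rfl
        _ ≤ exp ((m * X.δ w + X.ρ w + ε : ℕ) : ℤ) := by
            rw [one_mul, ← exp_add, exp_le_exp]
            push_cast
            omega

/-- the local bound for the minors of the rows of the coordinates and of the logarithmic
derivative of an element `u` -/
theorem pl_rows_log (w : Place κ L) {e : ℕ} (σ : Fin e → Fin (n + 1)) {u : L} (hu : u ≠ 0)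
    {t ε : ℕ} (hε : w.1 u = vmax w.1 X.x ^ t ∨ 1 ≤ ε) :
    pl w.1 (Fin.cons (X.lrow u) fun i => X.row (X.x (σ i)) : Fin (e + 1) → M3 d → L) ≤
      vmax w.1 X.x ^ (e + 1) * exp (((e + 1) * X.δ w + X.ρ w + ε : ℕ) : ℤ) := by
  classical
  obtain ⟨l, hl0, hlmax, hle⟩ := exists_vmax w.1 X.x_ne_zero
  have hvl0 : w.1 (X.x l) ≠ 0 := (Valuation.ne_zero_iff _).2 hl0
  have hone : 1 ≤ w.1 (X.x l) := by
    rw [← hlmax]; exact X.one_le_vmax w
  have hy' : w.1 (X.x l)⁻¹ ≤ 1 := by
    rw [map_inv₀]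
    exact inv_le_one_of_one_le₀ hone
  have hyi : ∀ i, w.1 (X.x i * (X.x l)⁻¹) ≤ 1 := by
    intro i
    rw [map_mul, map_inv₀]
    calc w.1 (X.x i) * (w.1 (X.x l))⁻¹ ≤ w.1 (X.x l) * (w.1 (X.x l))⁻¹ :=
          mul_le_mul_left (hle i) _
      _ = 1 := mul_inv_cancel₀ hvl0
  have hp : (X.x l)⁻¹ ≠ 0 := inv_ne_zero hl0
  -- the relation between the rows
  have hrel : ∀ i K, X.row (X.x i) K = X.x l * (X.row (X.x i * (X.x l)⁻¹) K -
      (X.x i * (X.x l)⁻¹) / (X.x l)⁻¹ * X.row (X.x l)⁻¹ K) := by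
    intro i K
    have h1 : X.x i = (X.x i * (X.x l)⁻¹) * X.x l := by
      rw [mul_assoc, inv_mul_cancel₀ hl0, mul_one]
    have h2 : X.row (X.x i) K = (X.x i * (X.x l)⁻¹) * X.row (X.x l) K +
        X.x l * X.row (X.x i * (X.x l)⁻¹) K := by
      conv_lhs => rw [h1]
      rw [X.row_mul]
      simp [Pi.add_apply, Pi.smul_apply, smul_eq_mul]
    have h3 : X.row (X.x l) K = - X.x l ^ 2 * X.row (X.x l)⁻¹ K := congrFun (X.row_inv hl0) K
    rw [h2, h3, div_inv_eq_mul]
    ring
  -- the unit part of `u`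
  set u' := u * ((X.x l)⁻¹) ^ t with hu'
  have hu'0 : u' ≠ 0 := mul_ne_zero hu (pow_ne_zero _ hp)
  have hεu : w.1 u' = 1 ∨ 1 ≤ ε := by
    rcases hε with h1 | h1
    · left
      rw [hu', map_mul, map_pow, map_inv₀, h1, hlmax, inv_pow, mul_inv_cancel₀ (pow_ne_zero _ hvl0)]
    · exact Or.inr h1
  have hlrel : ∀ K, X.lrow u K = X.lrow u' K - (t : L) / (X.x l)⁻¹ * X.row (X.x l)⁻¹ K := by
    intro K
    have h1 : X.lrow u' = X.lrow u + (t : L) • X.lrow (X.x l)⁻¹ := by
      rw [hu', X.lrow_mul hu (pow_ne_zero _ hp), X.lrow_pow hp]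
    rw [h1]
    simp only [lrow, Pi.add_apply, Pi.smul_apply, smul_eq_mul, inv_inv, div_inv_eq_mul]
    ring
  unfold pl
  refine vmax_le w.1 fun K => ?_
  set q : Fin (e + 1) → L := Fin.cons (t : L) fun i => X.x (σ i) * (X.x l)⁻¹ with hq
  set Q : Fin (e + 1) → Fin (e + 1) → L := Fin.cons (fun j => X.lrow u' (K j))
    fun i j => X.row (X.x (σ i) * (X.x l)⁻¹) (K j) with hQ
  set y : Fin (e + 2) → L := Fin.cons (X.x l)⁻¹ (Fin.cons 0 fun i => X.x (σ i) * (X.x l)⁻¹) with hy
  have hyle : ∀ i, w.1 (y i) ≤ 1 := by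
    intro i
    refine Fin.cases ?_ (fun i => ?_) i
    · exact hy'
    · refine Fin.cases ?_ (fun i => ?_) i
      · change w.1 0 ≤ 1
        rw [map_zero]
        exact zero_le
      · exact hyi (σ i)
  set M : Matrix (Fin (e + 2)) (Fin (e + 2)) L := Matrix.of (Fin.cons
    (Fin.cons (X.x l)⁻¹ (fun j => X.row (X.x l)⁻¹ (K j)))
    (fun i => (Fin.cons (q i) (Q i) : Fin (e + 2) → L))) with hM
  have hdet := det_border hp q (fun j => X.row (X.x l)⁻¹ (K j)) Q
  have hM0 : ∀ i, w.1 (M i 0) ≤ 1 := by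
    intro i
    refine Fin.cases ?_ (fun i => ?_) i
    · exact hy'
    · refine Fin.cases ?_ (fun i => ?_) i
      · change w.1 (t : L) ≤ 1
        exact natCast_mem w.1.integer t
      · exact hyi (σ i)
  have hMs : ∀ i j, M i (Fin.succ j) =
      if i = 1 then X.lrow u' (K j) else X.row (y i) (K j) := by
    intro i j
    refine Fin.cases ?_ (fun i => ?_) i
    · rw [if_neg (by exact (Fin.succ_ne_zero (0 : Fin (e + 1))).symm)]
      rfl
    · refine Fin.cases ?_ (fun i => ?_) i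
      · refine Eq.trans ?_ (if_pos (show (Fin.succ 0 : Fin (e + 2)) = 1 from rfl)).symm
        rfl
      · refine Eq.trans ?_ (if_neg (by
          intro h
          exact Fin.succ_ne_zero i (Fin.succ_injective _ h))).symm
        rfl
  have hbound : w.1 M.det ≤ 1 * exp (((e + 1) * X.δ w + X.ρ w + ε : ℕ) : ℤ) := by
    refine det_column_le w.1 M hM0 (fun i => ?_)
    by_cases hi : i = 1
    · have h1 : M.submatrix i.succAbove Fin.succ =
          Matrix.of fun i' j => X.row (y (i.succAbove i')) (K j) := by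
        ext i' j
        rw [Matrix.submatrix_apply, hMs, Matrix.of_apply, if_neg]
        rw [hi]
        exact Fin.succAbove_ne 1 i'
      rw [h1]
      refine (X.row_minor w K (fun i' => y (i.succAbove i')) fun j => hyle _).trans ?_
      rw [exp_le_exp]
      push_cast
      omega
    · obtain ⟨i₁, hi₁⟩ := Fin.exists_succAbove_eq (Ne.symm hi : (1 : Fin (e + 2)) ≠ i)
      have h1 : M.submatrix i.succAbove Fin.succ =
          Matrix.updateRow (Matrix.of fun i' j => X.row (y (i.succAbove i')) (K j)) i₁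
            (fun j => X.lrow u' (K j)) := by
        ext i' j
        rw [Matrix.submatrix_apply, hMs]
        by_cases hii : i' = i₁
        · subst hii
          rw [hi₁, if_pos rfl, Matrix.updateRow_self]
        · rw [Matrix.updateRow_ne hii, Matrix.of_apply, if_neg]
          intro h2
          exact hii (Fin.succAbove_right_injective (h2.trans hi₁.symm))
      rw [h1]
      exact X.row_minor_log w K (fun i' => y (i.succAbove i')) (fun j => hyle _) i₁ hu'0 hεu
  have hfinal : (Matrix.of fun i j =>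
      (Fin.cons (X.lrow u) fun i => X.row (X.x (σ i)) : Fin (e + 1) → M3 d → L) i (K j)).det =
        X.x l ^ (e + 1) * M.det := by
    have h1 : (Matrix.of fun i j =>
      (Fin.cons (X.lrow u) fun i => X.row (X.x (σ i)) : Fin (e + 1) → M3 d → L) i (K j)) =
        Matrix.of fun i j => (Fin.cons 1 fun _ => X.x l : Fin (e + 1) → L) i *
        (Matrix.of fun i j => Q i j - q i / (X.x l)⁻¹ * X.row (X.x l)⁻¹ (K j)) i j := by
      ext i j
      rw [Matrix.of_apply, Matrix.of_apply, Matrix.of_apply]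
      refine Fin.cases ?_ (fun i => ?_) i
      · simp only [Fin.cons_zero, hQ, hq, one_mul]
        exact hlrel (K j)
      · simp only [Fin.cons_succ, hQ, hq]
        exact hrel (σ i) (K j)
    rw [h1, Matrix.det_mul_column]
    have h2 : M.det = (X.x l)⁻¹ *
        (Matrix.of fun i j => Q i j - q i / (X.x l)⁻¹ * X.row (X.x l)⁻¹ (K j)).det :=
      hdet
    rw [h2, Fin.prod_univ_succ]
    simp only [Fin.cons_zero, Fin.cons_succ, Finset.prod_const, Finset.card_univ,
      Fintype.card_fin, one_mul]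
    rw [pow_succ, mul_assoc, ← mul_assoc (X.x l) (X.x l)⁻¹ _, mul_inv_cancel₀ hl0, one_mul]
  rw [one_mul] at hbound
  rw [hfinal, map_mul, map_pow, hlmax]
  exact mul_le_mul_right hbound _

/-- the local bound for the minors of the rows of arbitrary elements and of the logarithmic
derivative of an element `u` -/
theorem pl_rows_gen_log (w : Place κ L) {m : ℕ} (c : Fin m → L) (γ : Fin m → ℤᵐ⁰)
    (h1 : ∀ i, 1 ≤ γ i) (h2 : ∀ i, w.1 (c i) ≤ γ i) {u : L} (hu : u ≠ 0) {t ε : ℕ}
    (hε : w.1 u = vmax w.1 X.x ^ t ∨ 1 ≤ ε) :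
    pl w.1 (Fin.cons (X.lrow u) fun i => X.row (c i) : Fin (m + 1) → M3 d → L) ≤
      (∏ i, γ i ^ 2) * vmax w.1 X.x * exp (((m + 1) * X.δ w + X.ρ w + ε : ℕ) : ℤ) := by
  classical
  obtain ⟨l, hl0, hlmax, hle⟩ := exists_vmax w.1 X.x_ne_zero
  have hvl0 : w.1 (X.x l) ≠ 0 := (Valuation.ne_zero_iff _).2 hl0
  have hone : 1 ≤ w.1 (X.x l) := by
    rw [← hlmax]; exact X.one_le_vmax w
  have hp : (X.x l)⁻¹ ≠ 0 := inv_ne_zero hl0
  have hy' : w.1 (X.x l)⁻¹ ≤ 1 := by
    rw [map_inv₀]
    exact inv_le_one_of_one_le₀ hone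
  -- the unit part of `u`
  set u' := u * ((X.x l)⁻¹) ^ t with hu'
  have hu'0 : u' ≠ 0 := mul_ne_zero hu (pow_ne_zero _ hp)
  have hεu : w.1 u' = 1 ∨ 1 ≤ ε := by
    rcases hε with h1 | h1
    · left
      rw [hu', map_mul, map_pow, map_inv₀, h1, hlmax, inv_pow, mul_inv_cancel₀ (pow_ne_zero _ hvl0)]
    · exact Or.inr h1
  have hlrel : ∀ K, X.lrow u K = X.lrow u' K + (- ((t : L) * X.x l)) * X.row (X.x l)⁻¹ K := by
    intro K
    have h1 : X.lrow u' = X.lrow u + (t : L) • X.lrow (X.x l)⁻¹ := by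
      rw [hu', X.lrow_mul hu (pow_ne_zero _ hp), X.lrow_pow hp]
    rw [h1]
    simp only [lrow, Pi.add_apply, Pi.smul_apply, smul_eq_mul, inv_inv]
    ring
  unfold pl
  refine vmax_le w.1 fun K => ?_
  set c' : Fin m → L := fun i => if w.1 (c i) ≤ 1 then c i else (c i)⁻¹ with hc'
  set s : Fin m → L := fun i => if w.1 (c i) ≤ 1 then 1 else - c i ^ 2 with hs
  have hc'1 : ∀ i, w.1 (c' i) ≤ 1 := by
    intro i
    by_cases h : w.1 (c i) ≤ 1
    · simp only [hc', if_pos h]
      exact h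
    · simp only [hc', if_neg h]
      rw [map_inv₀]
      exact inv_le_one_of_one_le₀ (not_le.1 h).le
  have hs1 : ∀ i, w.1 (s i) ≤ γ i ^ 2 := by
    intro i
    by_cases h : w.1 (c i) ≤ 1
    · simp only [hs, if_pos h]
      rw [map_one]
      exact one_le_pow₀ (h1 i)
    · simp only [hs, if_neg h]
      rw [Valuation.map_neg, map_pow]
      exact pow_le_pow_left' (h2 i) 2
  have hrow : ∀ i j, X.row (c i) (K j) = s i * X.row (c' i) (K j) := by
    intro i j
    by_cases h : w.1 (c i) ≤ 1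
    · simp only [hs, hc', if_pos h, one_mul]
    · have hc0 : c i ≠ 0 := by
        rintro h0
        apply h
        rw [h0, map_zero]
        exact zero_le
      simp only [hs, hc', if_neg h]
      exact congrFun (X.row_inv hc0) (K j)
  set B : Matrix (Fin (m + 1)) (Fin (m + 1)) L :=
    Matrix.of fun i j => X.row ((Fin.cons 0 c' : Fin (m + 1) → L) i) (K j) with hB
  have hcons : ∀ i, w.1 ((Fin.cons 0 c' : Fin (m + 1) → L) i) ≤ 1 := by
    intro i
    refine Fin.cases ?_ (fun i => ?_) i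
    · change w.1 0 ≤ 1
      rw [map_zero]
      exact zero_le
    · exact hc'1 i
  have hdet : (Matrix.of fun i j =>
      (Fin.cons (X.lrow u) fun i => X.row (c i) : Fin (m + 1) → M3 d → L) i (K j)).det =
        (∏ i, s i) * (B.updateRow 0 (fun j => X.lrow u (K j))).det := by
    have h3 : (Matrix.of fun i j =>
      (Fin.cons (X.lrow u) fun i => X.row (c i) : Fin (m + 1) → M3 d → L) i (K j)) =
        Matrix.of fun i j => (Fin.cons 1 s : Fin (m + 1) → L) i *
          (B.updateRow 0 (fun j => X.lrow u (K j))) i j := by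
      ext i j
      rw [Matrix.of_apply, Matrix.of_apply]
      refine Fin.cases ?_ (fun i => ?_) i
      · simp only [Fin.cons_zero, one_mul, Matrix.updateRow_self]
      · rw [Matrix.updateRow_ne (Fin.succ_ne_zero i)]
        simp only [Fin.cons_succ, hB, Matrix.of_apply]
        exact hrow i j
    rw [h3, Matrix.det_mul_column, Fin.prod_univ_succ]
    simp only [Fin.cons_zero, Fin.cons_succ, one_mul]
  have hsplit : (fun j => X.lrow u (K j)) = (fun j => X.lrow u' (K j)) +
      (- ((t : L) * X.x l)) • (fun j => X.row (X.x l)⁻¹ (K j)) := by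
    funext j
    rw [Pi.add_apply, Pi.smul_apply, smul_eq_mul]
    exact hlrel (K j)
  have hb1 : w.1 (B.updateRow 0 (fun j => X.lrow u' (K j))).det ≤
      exp (((m + 1) * X.δ w + X.ρ w + ε : ℕ) : ℤ) :=
    X.row_minor_log w K _ hcons 0 hu'0 hεu
  have hb2 : w.1 (B.updateRow 0 (fun j => X.row (X.x l)⁻¹ (K j))).det ≤
      exp (((m + 1) * X.δ w + X.ρ w + ε : ℕ) : ℤ) := by
    have h3 : B.updateRow 0 (fun j => X.row (X.x l)⁻¹ (K j)) =
        Matrix.of fun i j => X.row ((Fin.cons (X.x l)⁻¹ c' : Fin (m + 1) → L) i) (K j) := by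
      ext i j
      refine Fin.cases ?_ (fun i => ?_) i
      · simp only [Matrix.updateRow_self, Matrix.of_apply, Fin.cons_zero]
      · rw [Matrix.updateRow_ne (Fin.succ_ne_zero i)]
        simp only [Fin.cons_succ, hB, Matrix.of_apply]
    rw [h3]
    refine (X.row_minor w K _ fun i => ?_).trans ?_
    · refine Fin.cases ?_ (fun i => ?_) i
      · exact hy'
      · exact hc'1 i
    · rw [exp_le_exp]
      push_cast
      omega
  have hb : w.1 (B.updateRow 0 (fun j => X.lrow u (K j))).det ≤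
      w.1 (X.x l) * exp (((m + 1) * X.δ w + X.ρ w + ε : ℕ) : ℤ) := by
    rw [hsplit, Matrix.det_updateRow_add, Matrix.det_updateRow_smul]
    refine (Valuation.map_add _ _ _).trans (max_le ?_ ?_)
    · calc _ ≤ 1 * exp (((m + 1) * X.δ w + X.ρ w + ε : ℕ) : ℤ) := by rw [one_mul]; exact hb1
        _ ≤ _ := mul_le_mul' hone le_rfl
    · rw [map_mul, Valuation.map_neg, map_mul]
      refine mul_le_mul' ?_ hb2
      calc w.1 (t : L) * w.1 (X.x l) ≤ 1 * w.1 (X.x l) :=
            mul_le_mul' (natCast_mem w.1.integer t) le_rfl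
        _ = w.1 (X.x l) := one_mul _
  rw [hdet, map_mul, map_prod, hlmax, mul_assoc]
  exact mul_le_mul' (Finset.prod_le_prod' fun i _ => hs1 i) hb

end

end DatG

end Pool.Agent.Lib.MP_44a246_ntG
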