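import Mathlib
import Pool.Agent.Lib.MP_44a246_ntG.G6
import Pool.Agent.Lib.MP_44a246_ntG.G11
import Pool.Agent.Lib.MP_44a246_ntG.G22

/-!
The heights of the spaces spanned by the rows and the row of the value of the form.
-/

namespace Pool.Agent.Lib.MP_44a246_ntG

open Pool.Agent.Lib.MP_44a246_nt
open Pool.Agent.Lib.MP_44a246_ntL
open Pool.Agent.Lib.MP_44a246_ntS
open Pool.Agent.Lib.MP_44a246_ntX
open Pool.Agent.Lib.MP_e52354_nt
open WithZero Module Polynomial

private theorem g23_exp_sum {ι : Type*} (s : Finset ι) (f : ι → ℤ) :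
    (exp (∑ i ∈ s, f i) : ℤᵐ⁰) = ∏ i ∈ s, exp (f i) := by
  classical
  induction s using Finset.induction_on with
  | empty => rw [Finset.sum_empty, Finset.prod_empty, exp_zero]
  | insert j s hj ih => rw [Finset.sum_insert hj, Finset.prod_insert hj, exp_add, ih]

/-- a family of generators: a basis among them -/
private theorem g23_basis {L E : Type*} [Field L] [AddCommGroup E] [Module L E] {γ : Type*}
    [Finite γ] (f : γ → E) : ∃ (e : ℕ) (σ : Fin e → γ), Function.Injective σ ∧
      LinearIndependent L (fun i => f (σ i)) ∧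
      Submodule.span L (Set.range fun i => f (σ i)) = Submodule.span L (Set.range f) ∧
      finrank L ↥(Submodule.span L (Set.range f)) = e := by
  classical
  obtain ⟨τ, σ', hσ', hsp, hli⟩ := exists_linearIndependent' L f
  have : Finite τ := Finite.of_injective σ' hσ'
  have : Fintype τ := Fintype.ofFinite τ
  have hai : LinearIndependent L (fun i : Fin (Fintype.card τ) =>
      f (σ' ((Fintype.equivFin τ).symm i))) := hli.comp _ (Fintype.equivFin τ).symm.injective
  have hr : Set.range (fun i : Fin (Fintype.card τ) => f (σ' ((Fintype.equivFin τ).symm i))) =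
      Set.range (f ∘ σ') := by
    ext y
    constructor
    · rintro ⟨i, rfl⟩
      exact ⟨_, rfl⟩
    · rintro ⟨t, rfl⟩
      refine ⟨Fintype.equivFin τ t, ?_⟩
      simp
  refine ⟨Fintype.card τ, fun i => σ' ((Fintype.equivFin τ).symm i),
    hσ'.comp (Fintype.equivFin τ).symm.injective, hai, by rw [hr, hsp], ?_⟩
  have h1 := finrank_span_eq_card hai
  rw [hr, hsp, Fintype.card_fin] at h1
  exact h1

private theorem g23_cons {L E : Type*} [Field L] [AddCommGroup E] [Module L E] {e : ℕ}
    {a : Fin e → E} (ha : LinearIndependent L a) {u v : E}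
    (hu : v ∉ Submodule.span L (Set.range a)) {t : L} (ht : t ≠ 0) (huv : u = t • v) :
    LinearIndependent L (Fin.cons u a : Fin (e + 1) → E) ∧
      Submodule.span L (Set.range (Fin.cons u a : Fin (e + 1) → E)) =
        Submodule.span L (Set.range a) ⊔ Submodule.span L {v} := by
  constructor
  · rw [linearIndependent_finCons]
    refine ⟨ha, fun h => hu ?_⟩
    rw [huv] at h
    exact (Submodule.smul_mem_iff _ ht).1 h
  · rw [Fin.range_cons, Submodule.span_insert, sup_comm, huv,
      Submodule.span_singleton_smul_eq (IsUnit.mk0 t ht)]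

namespace DatG

section

variable {κ L : Type*} [Field κ] [IsAlgClosed κ] [CharZero κ] [Field L] [Algebra κ L] {n d : ℕ}
  (X : DatG κ (L := L) n d)

omit [IsAlgClosed κ] [CharZero κ] in
private theorem lrow_eq {u : L} : X.lrow u = u⁻¹ • X.row u := rfl

/-- **The height of the space spanned by the rows of the coordinates and of the value of the
form.** -/
theorem ht_U_log (h : IsFF κ L) {r : ℕ} (hr : finrank L X.U ≤ r) (hv : X.v ≠ 0)
    {ε : Place κ L → ℕ} (hε : (Function.support ε).Finite)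
    (hεv : ∀ w : Place κ L, w.1 X.v = vmax w.1 X.x ^ d ∨ 1 ≤ ε w) :
    ht κ X.U ≤ (r + 1) * height κ X.x + r * X.Δ + ∑ᶠ w, (ε w : ℤ) + X.R := by
  classical
  have hH := h.height_nonneg X.x_ne_zero
  have hΔ := X.Δ_nonneg
  have hE0 : 0 ≤ ∑ᶠ w, (ε w : ℤ) := finsum_nonneg fun w => Int.natCast_nonneg _
  by_cases hvm : X.row X.v ∈ X.Ux
  · have hU : X.U = X.Ux := by
      unfold U
      exact sup_eq_left.2 ((Submodule.span_singleton_le_iff_mem _ _).2 hvm)
    rw [hU] at hr ⊢
    have := X.ht_Ux h hr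
    linarith
  obtain ⟨e, σ, -, hli, hsp, he⟩ := g23_basis (L := L) (fun j => X.row (X.x j))
  have hUx : Submodule.span L (Set.range fun i => X.row (X.x (σ i))) = X.Ux := hsp
  have hvm' : X.row X.v ∉ Submodule.span L (Set.range fun i => X.row (X.x (σ i))) := by
    rw [hUx]
    exact hvm
  obtain ⟨hai, has⟩ := g23_cons hli hvm' (inv_ne_zero hv) (X.lrow_eq (u := X.v))
  rw [hUx] at has
  change _ = X.U at has
  set a : Fin (e + 1) → M3 d → L := Fin.cons (X.lrow X.v) fun i => X.row (X.x (σ i)) with ha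
  have hen : e + 1 ≤ r := by
    have h1 := finrank_span_eq_card hai
    rw [has, Fintype.card_fin] at h1
    rw [← h1]
    exact hr
  have hloc : ∀ w : Place κ L, log (pl w.1 a) ≤
      ((e : ℤ) + 1) * log (vmax w.1 X.x) + (((e : ℤ) + 1) * (X.δ w : ℤ) + (X.ρ w : ℤ) +
        (ε w : ℤ)) := by
    intro w
    have h1 := X.pl_rows_log w σ hv (hεv w)
    have n1 : pl w.1 a ≠ 0 := pl_ne_zero w.1 hai
    have n2 : vmax w.1 X.x ≠ 0 := by
      rw [Ne, vmax_eq_zero_iff]
      exact X.x_ne_zero
    have n3 : vmax w.1 X.x ^ (e + 1) ≠ 0 := pow_ne_zero _ n2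
    have n4 : (exp (((e + 1) * X.δ w + X.ρ w + ε w : ℕ) : ℤ) : ℤᵐ⁰) ≠ 0 := exp_ne_zero
    have h2 := (log_le_log n1 (mul_ne_zero n3 n4)).mpr h1
    rw [log_mul n3 n4, log_pow, log_exp] at h2
    refine h2.trans (le_of_eq ?_)
    rw [nsmul_eq_mul]
    push_cast
    ring
  have s1 := pl_support h hai
  have s2 : (Function.support fun w : Place κ L =>
      ((e : ℤ) + 1) * log (vmax w.1 X.x)).Finite := by
    refine (h.vmax_support X.x_ne_zero).subset fun w hw h1 => hw ?_
    simp only at h1 ⊢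
    rw [h1, mul_zero]
  have s3 : (Function.support fun w : Place κ L => ((e : ℤ) + 1) * (X.δ w : ℤ)).Finite := by
    refine X.hδ.subset fun w hw h1 => hw ?_
    simp only at h1 ⊢
    rw [h1, Nat.cast_zero, mul_zero]
  have s4 : (Function.support fun w : Place κ L => (X.ρ w : ℤ)).Finite := by
    refine X.hρ.subset fun w hw h1 => hw ?_
    simp only at h1 ⊢
    rw [h1, Nat.cast_zero]
  have s5 : (Function.support fun w : Place κ L => (ε w : ℤ)).Finite := by
    refine hε.subset fun w hw h1 => hw ?_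
    simp only at h1 ⊢
    rw [h1, Nat.cast_zero]
  have s34 : (Function.support fun w : Place κ L => ((e : ℤ) + 1) * (X.δ w : ℤ) +
      (X.ρ w : ℤ)).Finite := (s3.union s4).subset (Function.support_add _ _)
  have s345 : (Function.support fun w : Place κ L => ((e : ℤ) + 1) * (X.δ w : ℤ) +
      (X.ρ w : ℤ) + (ε w : ℤ)).Finite := (s34.union s5).subset (Function.support_add _ _)
  have hmain := finsum_mono s1 ((s2.union s345).subset (Function.support_add _ _)) hloc
  rw [finsum_add_distrib s2 s345, finsum_add_distrib s34 s5, finsum_add_distrib s3 s4] at hmain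
  have e1 : ∑ᶠ w : Place κ L, log (pl w.1 a) = ht κ X.U := by
    rw [← ht_span h hai, has]
  have e2 : ∑ᶠ w : Place κ L, ((e : ℤ) + 1) * log (vmax w.1 X.x) =
      ((e : ℤ) + 1) * height κ X.x := (mul_finsum _ _).symm
  have e3 : ∑ᶠ w : Place κ L, ((e : ℤ) + 1) * (X.δ w : ℤ) = ((e : ℤ) + 1) * X.Δ :=
    (mul_finsum _ _).symm
  have e4 : ∑ᶠ w : Place κ L, (X.ρ w : ℤ) = X.R := rfl
  rw [e1, e2, e3, e4] at hmain
  have h3 : (e : ℤ) + 1 ≤ r := by exact_mod_cast hen
  nlinarith [mul_le_mul_of_nonneg_right h3 hH, mul_le_mul_of_nonneg_right h3 hΔ]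

end

end DatG

section

variable {κ L : Type*} [Field κ] [IsAlgClosed κ] [CharZero κ] [Field L] [Algebra κ L] {n d : ℕ}
  (X : DatG κ (L := L) n d)

/-- **The height of a space spanned by rows and the row of the value of the form.** -/
theorem ht_span_row_log (h : IsFF κ L) {γ : Type*} [Fintype γ] (c : Option γ → L)
    {g g' : Place κ L → ℤ} (hg : (Function.support g).Finite) (hg' : (Function.support g').Finite)
    (hg0 : ∀ w, 0 ≤ g w) (hg0' : ∀ w, 0 ≤ g' w) (h1 : ∀ t w, w.1 (c (some t)) ≤ exp (g w))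
    (h2 : ∀ w, w.1 (c none) ≤ exp (g' w)) {V : Submodule L (M3 d → L)}
    (hV : V = Submodule.span L (Set.range fun t => X.row (c t))) (hv : X.v ≠ 0)
    {ε : Place κ L → ℕ} (hε : (Function.support ε).Finite)
    (hεv : ∀ w : Place κ L, w.1 X.v = vmax w.1 X.x ^ d ∨ 1 ≤ ε w) :
    ht κ (V ⊔ Submodule.span L {X.row X.v}) ≤ finrank L V * (2 * ∑ᶠ w, g w + X.Δ) +
      2 * ∑ᶠ w, g' w + X.R + height κ X.x + X.Δ + ∑ᶠ w, (ε w : ℤ) := by
  classical
  have hH := h.height_nonneg X.x_ne_zero
  have hΔ := X.Δ_nonneg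
  have hE0 : 0 ≤ ∑ᶠ w, (ε w : ℤ) := finsum_nonneg fun w => Int.natCast_nonneg _
  by_cases hvm : X.row X.v ∈ V
  · have hU : V ⊔ Submodule.span L {X.row X.v} = V :=
      sup_eq_left.2 ((Submodule.span_singleton_le_iff_mem _ _).2 hvm)
    rw [hU]
    have := ht_span_row_le X h c hg hg' hg0 hg0' h1 h2 hV
    linarith
  obtain ⟨e, σ, hσi, hli, hsp, he⟩ := g23_basis (L := L) (fun t => X.row (c t))
  rw [← hV] at hsp he
  have hvm' : X.row X.v ∉ Submodule.span L (Set.range fun i => X.row (c (σ i))) := by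
    rw [hsp]
    exact hvm
  obtain ⟨hai, has⟩ := g23_cons hli hvm' (inv_ne_zero hv)
    (show X.lrow X.v = (X.v)⁻¹ • X.row X.v from rfl)
  rw [hsp] at has
  set a : Fin (e + 1) → M3 d → L := Fin.cons (X.lrow X.v) fun i => X.row (c (σ i)) with ha
  -- the local bounds
  let G : Place κ L → Option γ → ℤ := fun w t => t.elim (g' w) fun _ => g w
  have hG0 : ∀ w t, 0 ≤ G w t := by
    intro w t
    cases t with
    | none => exact hg0' w
    | some t => exact hg0 w
  have hGc : ∀ w t, w.1 (c t) ≤ exp (G w t) := by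
    intro w t
    cases t with
    | none => exact h2 w
    | some t => exact h1 t w
  have hGsum : ∀ w, ∑ i, 2 * G w (σ i) ≤ e * (2 * g w) + 2 * g' w := by
    intro w
    have h3 : ∀ i, 2 * G w (σ i) ≤ 2 * g w + if σ i = none then 2 * g' w else 0 := by
      intro i
      rcases hi : σ i with _ | t
      · simp only [G, Option.elim_none, if_true]
        have := hg0 w
        linarith
      · simp only [G, Option.elim_some, reduceCtorEq, if_false, add_zero]
        exact le_rfl
    refine (Finset.sum_le_sum fun i _ => h3 i).trans ?_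
    rw [Finset.sum_add_distrib, Finset.sum_const, Finset.card_univ, Fintype.card_fin, nsmul_eq_mul]
    have h4 : ∑ i : Fin e, (if σ i = none then 2 * g' w else 0) ≤ 2 * g' w := by
      rw [← Finset.sum_filter, Finset.sum_const, nsmul_eq_mul]
      have h5 : (Finset.univ.filter fun i : Fin e => σ i = none).card ≤ 1 := by
        rw [Finset.card_le_one]
        intro i hi j hj
        rw [Finset.mem_filter] at hi hj
        exact hσi (hi.2.trans hj.2.symm)
      have h6 : (((Finset.univ.filter fun i : Fin e => σ i = none).card : ℕ) : ℤ) ≤ 1 := by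
        exact_mod_cast h5
      have h7 := mul_le_mul_of_nonneg_right h6 (show 0 ≤ 2 * g' w by have := hg0' w; linarith)
      linarith
    linarith
  have hloc : ∀ w : Place κ L, log (pl w.1 a) ≤
      (e : ℤ) * (2 * g w) + 2 * g' w + log (vmax w.1 X.x) +
        (((e : ℤ) + 1) * (X.δ w : ℤ) + (X.ρ w : ℤ) + (ε w : ℤ)) := by
    intro w
    have h3 := X.pl_rows_gen_log w (fun i => c (σ i)) (fun i => exp (G w (σ i))) (fun i => by
      rw [← exp_zero, exp_le_exp]
      exact hG0 w _) (fun i => hGc w _) hv (hεv w)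
    have n1 : pl w.1 a ≠ 0 := pl_ne_zero w.1 hai
    have n2 : vmax w.1 X.x ≠ 0 := by
      rw [Ne, vmax_eq_zero_iff]
      exact X.x_ne_zero
    have h4 : ∏ i, (exp (G w (σ i)) : ℤᵐ⁰) ^ 2 = exp (∑ i, 2 * G w (σ i)) := by
      rw [g23_exp_sum]
      refine Finset.prod_congr rfl fun i _ => ?_
      rw [← exp_nsmul, nsmul_eq_mul]
      rfl
    rw [h4, ← exp_log n2, ← exp_add, ← exp_add] at h3
    rw [log_le_iff_le_exp n1]
    refine h3.trans ?_
    rw [exp_le_exp]
    have := hGsum w
    push_cast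
    linarith
  have s1 := pl_support h hai
  have s2 : (Function.support fun w : Place κ L => (e : ℤ) * (2 * g w)).Finite := by
    refine hg.subset fun w hw h1 => hw ?_
    simp only at h1 ⊢
    rw [h1, mul_zero, mul_zero]
  have s3 : (Function.support fun w : Place κ L => 2 * g' w).Finite := by
    refine hg'.subset fun w hw h1 => hw ?_
    simp only at h1 ⊢
    rw [h1, mul_zero]
  have s4 : (Function.support fun w : Place κ L => log (vmax w.1 X.x)).Finite :=
    h.vmax_support X.x_ne_zero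
  have s5 : (Function.support fun w : Place κ L => ((e : ℤ) + 1) * (X.δ w : ℤ)).Finite := by
    refine X.hδ.subset fun w hw h1 => hw ?_
    simp only at h1 ⊢
    rw [h1, Nat.cast_zero, mul_zero]
  have s6 : (Function.support fun w : Place κ L => (X.ρ w : ℤ)).Finite := by
    refine X.hρ.subset fun w hw h1 => hw ?_
    simp only at h1 ⊢
    rw [h1, Nat.cast_zero]
  have s7 : (Function.support fun w : Place κ L => (ε w : ℤ)).Finite := by
    refine hε.subset fun w hw h1 => hw ?_
    simp only at h1 ⊢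
    rw [h1, Nat.cast_zero]
  have s23 := (s2.union s3).subset (Function.support_add _ _)
  have s234 := (s23.union s4).subset (Function.support_add _ _)
  have s56 := (s5.union s6).subset (Function.support_add _ _)
  have s567 := (s56.union s7).subset (Function.support_add _ _)
  have hmain := finsum_mono s1 ((s234.union s567).subset (Function.support_add _ _)) hloc
  rw [finsum_add_distrib s234 s567, finsum_add_distrib s23 s4, finsum_add_distrib s2 s3,
    finsum_add_distrib s56 s7, finsum_add_distrib s5 s6] at hmain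
  have e1 : ∑ᶠ w : Place κ L, log (pl w.1 a) = ht κ (V ⊔ Submodule.span L {X.row X.v}) := by
    rw [← ht_span h hai, has]
  have e2 : ∑ᶠ w : Place κ L, (e : ℤ) * (2 * g w) = e * (2 * ∑ᶠ w, g w) := by
    rw [← mul_finsum, ← mul_finsum]
  have e3 : ∑ᶠ w : Place κ L, 2 * g' w = 2 * ∑ᶠ w, g' w := (mul_finsum _ _).symm
  have e4 : ∑ᶠ w : Place κ L, ((e : ℤ) + 1) * (X.δ w : ℤ) = ((e : ℤ) + 1) * X.Δ :=
    (mul_finsum _ _).symm
  have e5 : ∑ᶠ w : Place κ L, (X.ρ w : ℤ) = X.R := rfl
  have e6 : ∑ᶠ w : Place κ L, log (vmax w.1 X.x) = height κ X.x := rfl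
  rw [e1, e2, e3, e4, e5, e6] at hmain
  rw [he]
  linarith

variable {b : ℕ} {A : L[X][X]} (hA : CrvG X b A)

include hA in
/-- **The height of the space of the rows and the row of the value of the form.** -/
theorem ht_VJ_log (h : IsFF κ L) {J : Finset (Fin (n + 1))} {N : ℕ}
    (hN : finrank L (X.VJ J b A) ≤ N) (hv : X.v ≠ 0)
    {ε : Place κ L → ℕ} (hε : (Function.support ε).Finite)
    (hεv : ∀ w : Place κ L, w.1 X.v = vmax w.1 X.x ^ d ∨ 1 ≤ ε w) :
    ht κ (X.VJ J b A ⊔ Submodule.span L {X.row X.v}) ≤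
    N * (4 * gh κ A + 3 * X.Δ) + 3 * height κ X.x + X.Δ + ∑ᶠ w, (ε w : ℤ) + X.R := by
  have hA0 : A ≠ 0 := hA.irr.ne_zero
  have hα : 0 ≤ gh κ A := gh_nonneg h hA0
  have hΔ := X.Δ_nonneg
  have hH : 0 ≤ height κ X.x := h.height_nonneg X.x_ne_zero
  have s0 := gg_support h hA0
  have s1 : (Function.support fun w : Place κ L => 2 * log (gg w.1 A)).Finite := by
    refine s0.subset fun w hw h1 => hw ?_
    simp only at h1 ⊢
    rw [h1, mul_zero]
  have s2 : (Function.support fun w : Place κ L => (X.δ w : ℤ)).Finite := by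
    refine X.hδ.subset fun w hw h1 => hw ?_
    simp only at h1 ⊢
    rw [h1, Nat.cast_zero]
  have hlog : ∀ w : Place κ L, 0 ≤ log (gg w.1 A) := by
    intro w
    rw [le_log_iff_exp_le ((gg_eq_zero w.1).not.2 hA0), exp_zero]
    exact one_le_gg hA.one w
  have hlogx : ∀ w : Place κ L, 0 ≤ log (vmax w.1 X.x) := by
    intro w
    have hv : vmax w.1 X.x ≠ 0 := by
      rw [Ne, vmax_eq_zero_iff]
      exact X.x_ne_zero
    rw [le_log_iff_exp_le hv, exp_zero]
    exact X.one_le_vmax w
  have hV : X.VJ J b A = Submodule.span L (Set.range fun t : Option (Option ↥J ×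
      Fin (b + 1) × Fin (b + 1)) => X.row (t.elim X.y₁
        fun t => ((t.1.elim A (fun k => X.B A k.1)).coeff t.2.1).coeff t.2.2)) := by
    unfold DatG.VJ
    rw [Submodule.span_range_eq_iSup, iSup_option, sup_comm, Finset.sup_univ_eq_iSup]
    rfl
  have hmain := ht_span_row_log X h (fun t : Option (Option ↥J ×
      Fin (b + 1) × Fin (b + 1)) => t.elim X.y₁
        fun t => ((t.1.elim A (fun k => X.B A k.1)).coeff t.2.1).coeff t.2.2)
    (g := fun w => 2 * log (gg w.1 A) + (X.δ w : ℤ)) (g' := fun w => log (vmax w.1 X.x))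
    ((s1.union s2).subset (Function.support_add _ _)) (h.vmax_support X.x_ne_zero)
    (fun w => by have := hlog w; positivity) hlogx (fun t w => ?_) (fun w => ?_) hV hv hε hεv
  · have e1 : ∑ᶠ w : Place κ L, (2 * log (gg w.1 A) + (X.δ w : ℤ)) = 2 * gh κ A + X.Δ := by
      rw [finsum_add_distrib s1 s2, ← mul_finsum]
      rfl
    have e2 : ∑ᶠ w : Place κ L, log (vmax w.1 X.x) = height κ X.x := rfl
    rw [e1, e2] at hmain
    have h1 : (finrank L (X.VJ J b A) : ℤ) ≤ N := by exact_mod_cast hN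
    have h2 := mul_le_mul_of_nonneg_right h1 (show 0 ≤ 4 * gh κ A + 3 * X.Δ by linarith)
    have h3 : (finrank L (X.VJ J b A) : ℤ) * (2 * (2 * gh κ A + X.Δ) + X.Δ) =
        (finrank L (X.VJ J b A) : ℤ) * (4 * gh κ A + 3 * X.Δ) := by ring
    rw [h3] at hmain
    linarith
  · have ha0 : gg w.1 A ≠ 0 := (gg_eq_zero w.1).not.2 hA0
    have hexp : (exp (2 * log (gg w.1 A) + (X.δ w : ℤ)) : ℤᵐ⁰) = gg w.1 A ^ 2 * exp (X.δ w : ℤ) := by
      rw [exp_add, show (2 * log (gg w.1 A) : ℤ) = (2 : ℕ) • log (gg w.1 A) by simp, exp_nsmul,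
        exp_log ha0]
    simp only [Option.elim_some]
    rw [hexp]
    have ha : 1 ≤ gg w.1 A := one_le_gg hA.one w
    have he : (1 : ℤᵐ⁰) ≤ exp (X.δ w : ℤ) := by
      rw [← exp_zero, exp_le_exp]
      positivity
    rcases t with ⟨_ | k, i, j⟩
    · refine (le_gg w.1 A i j).trans ?_
      calc gg w.1 A = gg w.1 A * 1 * 1 := by rw [mul_one, mul_one]
        _ ≤ gg w.1 A * gg w.1 A * exp (X.δ w : ℤ) :=
          mul_le_mul' (mul_le_mul' le_rfl ha) he
        _ = gg w.1 A ^ 2 * exp (X.δ w : ℤ) := by rw [sq]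
    · exact (le_gg w.1 (X.B A k.1) i j).trans (X.B_le hA k.1 w)
  · have hv : vmax w.1 X.x ≠ 0 := by
      rw [Ne, vmax_eq_zero_iff]
      exact X.x_ne_zero
    simp only [Option.elim_none]
    rw [exp_log hv, X.vmax_x w]
    exact le_max_right _ _

end

end Pool.Agent.Lib.MP_44a246_ntG
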