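import Mathlib
import Pool.Agent.Lib.MP_44a246_ntG.G20
import Pool.Agent.Lib.MP_44a246_ntG.G23

/-!
The curve of small degree and small height through a point off the hypersurface.
-/

namespace Pool.Agent.Lib.MP_44a246_ntG

open Pool.Agent.Lib.MP_44a246_nt
open Pool.Agent.Lib.MP_44a246_ntL
open Pool.Agent.Lib.MP_44a246_ntS
open Pool.Agent.Lib.MP_44a246_ntX
open Pool.Agent.Lib.MP_e52354_nt
open WithZero Module Polynomial

variable {κ L : Type*} [Field κ] [IsAlgClosed κ] [CharZero κ] [Field L] [CharZero L]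
  [Algebra κ L]

omit [IsAlgClosed κ] [CharZero κ] [CharZero L] in
theorem DatG.finrank_U_le {n d : ℕ} (X : DatG κ (L := L) n d) : finrank L X.U ≤ n + 1 := by
  have h1 := Submodule.finrank_add_le_finrank_add_finrank X.Ux (Submodule.span L {X.row X.v})
  have h2 : finrank L ↥(Submodule.span L ({X.row X.v} : Set (M3 d → L))) ≤ 1 := by
    have h3 := finrank_span_le_card (R := L) ({X.row X.v} : Set (M3 d → L))
    simpa using h3
  have h3 := X.finrank_Ux
  have h4 : finrank L X.U = finrank L ↥(X.Ux ⊔ Submodule.span L {X.row X.v}) := rfl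
  omega

/-- **Steps A and B for a point off the hypersurface**, with truncated counting: `ε w = 0` implies
that the value of the form at the point has the expected absolute value at `w`. -/
theorem exists_small_curve_log (h : IsFF κ L) {n d T r q : ℕ} (hT : 1 ≤ T)
    (hT2 : 2000 * T ^ 2 ≤ d) (hq : 2500 * (T * (q + 4)) ≤ d)
    (hNq : 2 * r + 8500 * T ^ 2 + T * (r + 2 + q) ≤ T * d) (X : DatG κ (L := L) n d)
    (hr : finrank L X.U ≤ r) (hv : X.v ≠ 0)
    {ε : Place κ L → ℕ} (hε : (Function.support ε).Finite)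
    (hεv : ∀ w : Place κ L, w.1 X.v = vmax w.1 X.x ^ d ∨ 1 ≤ ε w)
    (hR : X.R ≤ q * height κ X.x)
    (hbig : 27 * (d : ℤ) ^ 2 * (X.Δ + ∑ᶠ w, (ε w : ℤ)) < height κ X.x) :
    ∃ A : L[X][X], CrvG X (2 * T) A ∧ A.leadingCoeff.Monic ∧
      5 * (gh κ A * ((d / 8 : ℕ) : ℤ) ^ 2) ≤ 16 * (((q + 4 : ℕ) : ℤ) * height κ X.x) := by
  have hΔ := X.Δ_nonneg
  have hE0 : 0 ≤ ∑ᶠ w, (ε w : ℤ) := finsum_nonneg fun w => Int.natCast_nonneg _
  have hr1 : 1 ≤ r := by
    refine le_trans ?_ hr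
    rw [Nat.one_le_iff_ne_zero, Ne, Submodule.finrank_eq_zero]
    intro h4
    have h1 := X.xi_mem_U
    rw [h4, Submodule.mem_bot] at h1
    exact xi_ne_zero X.p_ne_zero h1
  have hr1' : (1 : ℤ) ≤ r := by exact_mod_cast hr1
  refine exists_small_curve h hT hT2 hq hNq X (s := q + 4) (E := X.Δ + ∑ᶠ w, (ε w : ℤ)) hr ?_ ?_
    (by linarith) hbig
  · have h1 := X.ht_U_log h hr hv hε hεv
    have h2 : 1 * ∑ᶠ w, (ε w : ℤ) ≤ r * ∑ᶠ w, (ε w : ℤ) := mul_le_mul_of_nonneg_right hr1' hE0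
    linarith
  · intro b A hA J N hN
    have h1 := ht_VJ_log X hA h hN hv hε hεv
    push_cast
    linarith

end Pool.Agent.Lib.MP_44a246_ntG
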